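import Pool.Agent.Run7.h782.WS.Defs
import Pool.Agent.Run7.h782.GD.Bas

/-!
Piece W0: elementary properties of the norm of the antidivergence.
-/

set_option autoImplicit false

open MeasureTheory Set Filter Topology
open scoped ContDiff ComplexConjugate

namespace Pool.Agent.Run7.h744.WS

open H459R3.NS Pool.Agent.Run7.h782 Pool.Agent.Run7.h782.GD Pool.Agent.Run7.h782.WS

theorem anti_add (c d : Cf) (i j : Fin 3) : anti (c + d) i j = anti c i j + anti d i j := by
  funext k
  simp only [anti, Pi.add_apply]
  ring

theorem anti_neg (c : Cf) (i j : Fin 3) : anti (-c) i j = -anti c i j := by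
  funext k
  simp only [anti, Pi.neg_apply]
  ring

theorem norm_anti_le (c : Cf) (i j : Fin 3) (k : K3) :
    ‖anti c i j k‖ ≤ 1 / Real.pi * (‖c k‖ / len k) := by
  have hpi := Real.pi_pos
  by_cases hk : k = 0
  · subst hk
    simp [anti]
  have hl := len_pos hk
  have h1 : ‖c k i * (k j : ℂ) + (k i : ℂ) * c k j‖ ≤ 2 * (‖c k‖ * len k) := by
    refine (norm_add_le _ _).trans ?_
    rw [norm_mul, norm_mul, Complex.norm_intCast, Complex.norm_intCast]
    have hi := abs_le_len k i
    have hj := abs_le_len k j
    have hci := norm_le_pi_norm (c k) i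
    have hcj := norm_le_pi_norm (c k) j
    have e1 := mul_le_mul hci hj (abs_nonneg _) (norm_nonneg _)
    have e2 := mul_le_mul hi hcj (norm_nonneg _) hl.le
    nlinarith
  have h2 : ‖(2 * Real.pi * Complex.I * (GD.sq k : ℂ) : ℂ)‖ = 2 * Real.pi * len k ^ 2 := by
    rw [norm_mul, norm_mul, norm_mul, Complex.norm_I, Complex.norm_real, Complex.norm_real,
      len_sq, Real.norm_of_nonneg hpi.le, Real.norm_of_nonneg (sq_nonneg' k)]
    simp
  rw [anti, norm_div, h2, div_le_iff₀ (by positivity)]
  refine h1.trans (le_of_eq ?_)
  field_simp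

theorem summable_anti {c : Cf} (hc : Summable fun k => ‖c k‖ / len k) (i j : Fin 3) :
    Summable (anti c i j) :=
  Summable.of_norm_bounded (hc.mul_left _) (norm_anti_le c i j)

/-- **Piece W0.** -/
theorem stmAl : StmAl := by
  have hpi := Real.pi_pos
  refine ⟨9 / Real.pi, by positivity, ?_, ?_, ?_⟩
  · intro c d hc hd
    rw [al, al, al, ← Finset.sum_add_distrib]
    refine Finset.sum_le_sum fun i _ => ?_
    rw [← Finset.sum_add_distrib]
    refine Finset.sum_le_sum fun j _ => ?_
    have h1 := summable_anti hc i j
    have h2 := summable_anti hd i j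
    have c1 := S_continuous h1
    have c2 := S_continuous h2
    rw [← integral_add (integrableOn_cube c1.norm) (integrableOn_cube c2.norm)]
    have e : ∀ x, S (anti (c + d) i j) x = S (anti c i j) x + S (anti d i j) x := by
      intro x
      rw [anti_add, S, S, S, ← (summable_term h1 x).tsum_add (summable_term h2 x)]
      exact tsum_congr fun k => by rw [Pi.add_apply, add_mul]
    simp_rw [e]
    exact integral_mono (integrableOn_cube (c1.add c2).norm)
      (integrableOn_cube (c1.norm.add c2.norm)) fun x => norm_add_le _ _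
  · intro c
    rw [al, al]
    refine Finset.sum_congr rfl fun i _ => Finset.sum_congr rfl fun j _ => ?_
    have e : ∀ x, S (anti (-c) i j) x = -S (anti c i j) x := by
      intro x
      rw [anti_neg, S, S, ← tsum_neg]
      exact tsum_congr fun k => by rw [Pi.neg_apply, neg_mul]
    simp_rw [e, norm_neg]
  · intro c hc
    have h1 : ∀ i j, ∫ x in cube, ‖S (anti c i j) x‖ ≤ 1 / Real.pi * ∑' k, ‖c k‖ / len k := by
      intro i j
      have hs := summable_anti hc i j
      have hb : ∀ x, ‖S (anti c i j) x‖ ≤ 1 / Real.pi * ∑' k, ‖c k‖ / len k := by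
        intro x
        refine (norm_S_le hs x).trans ?_
        rw [← tsum_mul_left]
        exact hs.norm.tsum_le_tsum (norm_anti_le c i j) (hc.mul_left _)
      calc ∫ x in cube, ‖S (anti c i j) x‖
          ≤ ∫ x in cube, (1 / Real.pi * ∑' k, ‖c k‖ / len k : ℝ) :=
            integral_mono (integrableOn_cube (S_continuous hs).norm)
              (integrableOn_cube continuous_const) hb
        _ = 1 / Real.pi * ∑' k, ‖c k‖ / len k := by
            rw [integral_const, Measure.real, Measure.restrict_apply_univ, volume_cube]
            simp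
    calc al c ≤ ∑ _i : Fin 3, ∑ _j : Fin 3, 1 / Real.pi * ∑' k, ‖c k‖ / len k :=
          Finset.sum_le_sum fun i _ => Finset.sum_le_sum fun j _ => h1 i j
      _ = 9 / Real.pi * ∑' k, ‖c k‖ / len k := by
          simp only [Finset.sum_const, Finset.card_univ, Fintype.card_fin, nsmul_eq_mul]
          push_cast
          ring

end Pool.Agent.Run7.h744.WS
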