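import Pool.Agent.Run7.h744.WS.Geo

/-!
The geometric decomposition with control of finitely many moments.
-/

set_option autoImplicit false

open MeasureTheory Set Filter Topology
open scoped ContDiff ComplexConjugate

namespace Pool.Agent.Run7.h744.WS

open H459R3.NS Pool.Agent.Run7.h782 Pool.Agent.Run7.h782.GD Pool.Agent.Run7.h782.GS
open Pool.Agent.Run7.h782.WS Pool.Agent.Run7.h32.GD

/-- Moments of a profile. -/
noncomputable def mo (r : ℝ) (c : Cf) : ℝ := ∑ i, ∫ x in cube, ‖S (fun k => c k i) x‖ ^ r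

/-- Moments of the antidivergence. -/
noncomputable def moa (r : ℝ) (c : Cf) : ℝ := ∑ i, ∑ j, ∫ x in cube, ‖S (anti c i j) x‖ ^ r

theorem rpow_add_le {r : ℝ} (hr : 0 < r) {x y : ℝ} (hx : 0 ≤ x) (hy : 0 ≤ y) :
    (x + y) ^ r ≤ 2 ^ r * (x ^ r + y ^ r) := by
  rcases le_total x y with h | h
  · calc (x + y) ^ r ≤ (2 * y) ^ r := Real.rpow_le_rpow (by positivity) (by linarith) hr.le
      _ = 2 ^ r * y ^ r := Real.mul_rpow (by norm_num) hy
      _ ≤ _ := by
        have : 0 ≤ x ^ r := Real.rpow_nonneg hx r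
        gcongr
        linarith
  · calc (x + y) ^ r ≤ (2 * x) ^ r := Real.rpow_le_rpow (by positivity) (by linarith) hr.le
      _ = 2 ^ r * x ^ r := Real.mul_rpow (by norm_num) hx
      _ ≤ _ := by
        have : 0 ≤ y ^ r := Real.rpow_nonneg hy r
        gcongr
        linarith

theorem rpow_sum_le {ι : Type*} (s : Finset ι) (hs : s.Nonempty) {r : ℝ} (hr : 0 < r) {f : ι → ℝ}
    (hf : ∀ i ∈ s, 0 ≤ f i) : (∑ i ∈ s, f i) ^ r ≤ (s.card : ℝ) ^ r * ∑ i ∈ s, f i ^ r := by
  obtain ⟨i, hi, hmax⟩ := s.exists_max_image f hs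
  have h1 : ∑ j ∈ s, f j ≤ s.card * f i := by
    calc ∑ j ∈ s, f j ≤ ∑ _j ∈ s, f i := Finset.sum_le_sum hmax
      _ = s.card * f i := by rw [Finset.sum_const, nsmul_eq_mul]
  calc (∑ j ∈ s, f j) ^ r ≤ (s.card * f i) ^ r :=
        Real.rpow_le_rpow (Finset.sum_nonneg hf) h1 hr.le
    _ = (s.card : ℝ) ^ r * f i ^ r := Real.mul_rpow (by positivity) (hf i hi)
    _ ≤ _ := by
        refine mul_le_mul_of_nonneg_left ?_ (by positivity)
        exact Finset.single_le_sum (f := fun j => f j ^ r)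
          (fun j hj => Real.rpow_nonneg (hf j hj) r) hi

/-- The constant of the moments. -/
noncomputable def kq (r : ℝ) : ℝ := 27 * 2 ^ (2 * r) * (3 ^ r * 2 ^ r * 9 ^ r + 1) * 2

theorem kq_pos (r : ℝ) : 0 < kq r := by
  unfold kq
  positivity

/-- The sup norm of the truncation. -/
theorem norm_S_rs_le {z : Cf} {Z : Finset K3} (hZ : ∀ k ∉ Z, z k = 0) {θ : ℝ} (hθ : 0 < θ)
    (m : Fin 9) (P : Finset K3) (i : Fin 3) (x : V) :
    ‖S (fun k => rs P (sf z θ m) k i) x‖ ≤ aa z θ m x + N0 (sf z θ m - rs P (sf z θ m)) := by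
  have h1 := l1_sf hZ hθ m
  have h2 : L1 (rs P (sf z θ m)) := l1_rs P _
  have s1 : Summable fun k => sf z θ m k i :=
    Summable.of_norm (Summable.of_nonneg_of_le (fun _ => norm_nonneg _)
      (fun k => norm_le_pi_norm (sf z θ m k) i) h1)
  have s2 : Summable fun k => rs P (sf z θ m) k i :=
    Summable.of_norm (Summable.of_nonneg_of_le (fun _ => norm_nonneg _)
      (fun k => norm_le_pi_norm (rs P (sf z θ m) k) i) h2)
  have h3 : L1 (sf z θ m - rs P (sf z θ m)) := h1.sub h2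
  have e : S (fun k => rs P (sf z θ m) k i) x
      = S (fun k => sf z θ m k i) x - S (fun k => (sf z θ m - rs P (sf z θ m)) k i) x := by
    rw [S, S, S, ← (summable_term s1 x).tsum_sub]
    · exact tsum_congr fun k => by simp only [Pi.sub_apply]; ring
    · refine summable_term ?_ x
      exact s1.sub s2
  have e2 : S (fun k => sf z θ m k i) x = (xi m i : ℂ) * (aa z θ m x : ℂ) := by
    rw [← S_fr (sp_aa hZ hθ m) x, S, S, ← tsum_mul_left]
    exact tsum_congr fun k => by rw [sf]; ring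
  have e3 : ‖S (fun k => sf z θ m k i) x‖ ≤ aa z θ m x := by
    rw [e2, norm_mul, Complex.norm_intCast, Complex.norm_real,
      Real.norm_of_nonneg (show 0 ≤ aa z θ m x from Real.sqrt_nonneg _)]
    refine mul_le_of_le_one_left (Real.sqrt_nonneg _) ?_
    exact_mod_cast xi_le m i
  have e4 : ‖S (fun k => (sf z θ m - rs P (sf z θ m)) k i) x‖
      ≤ N0 (sf z θ m - rs P (sf z θ m)) := by
    refine (norm_S_le (s1.sub s2) x).trans ?_
    rw [N0_eq]
    exact (s1.sub s2).norm.tsum_le_tsum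
      (fun k => norm_le_pi_norm ((sf z θ m - rs P (sf z θ m)) k) i) h3
  rw [e]
  exact (norm_sub_le _ _).trans (add_le_add e3 e4)

/-- The moments of the roots. -/
theorem int_aa_le {z : Cf} {Z : Finset K3} (hZ : ∀ k ∉ Z, z k = 0) {θ : ℝ} (hθ : 0 < θ)
    (m : Fin 9) {r : ℝ} (hr : 0 < r) :
    ∫ x in cube, aa z θ m x ^ (2 * r) ≤ 3 ^ r * 2 ^ r * 9 ^ r * (θ ^ r + moa r z) := by
  have hS : ∀ i j, Continuous (S (anti z i j)) := fun i j => S_continuous (anti_summable hZ i j)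
  have hSr : ∀ i j, Continuous fun x => ‖S (anti z i j) x‖ ^ r := fun i j =>
    (hS i j).norm.rpow_const fun _ => Or.inr hr.le
  have hpt : ∀ x, aa z θ m x ^ (2 * r)
      ≤ 3 ^ r * 2 ^ r * 9 ^ r * (θ ^ r + ∑ i, ∑ j, ‖S (anti z i j) x‖ ^ r) := by
    intro x
    have h0 : 0 ≤ aa z θ m x := Real.sqrt_nonneg _
    have h1 : aa z θ m x ^ (2 * r) = cc z θ m x ^ r := by
      rw [Real.rpow_mul h0, Real.rpow_two, aa_sq z hθ m x]
    have h2 : cc z θ m x ≤ 3 * (θ + ∑ i, ∑ j, ‖S (anti z i j) x‖) := by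
      refine (cc_bd z θ m x).2.trans ?_
      have h3 := qq_le z hθ x
      have h4 : ∑ i, ∑ j, |rr z i j x| ≤ ∑ i, ∑ j, ‖S (anti z i j) x‖ :=
        Finset.sum_le_sum fun i _ => Finset.sum_le_sum fun j _ => Complex.abs_re_le_norm _
      linarith
    have h5 : 0 ≤ ∑ i, ∑ j, ‖S (anti z i j) x‖ :=
      Finset.sum_nonneg fun i _ => Finset.sum_nonneg fun j _ => norm_nonneg _
    have h6 : (∑ i, ∑ j, ‖S (anti z i j) x‖) ^ r ≤ 9 ^ r * ∑ i, ∑ j, ‖S (anti z i j) x‖ ^ r := by
      have h7 := rpow_sum_le (Finset.univ : Finset (Fin 3 × Fin 3)) Finset.univ_nonempty hr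
        (f := fun p => ‖S (anti z p.1 p.2) x‖) (fun _ _ => norm_nonneg _)
      rw [Finset.card_univ, Fintype.card_prod, Fintype.card_fin] at h7
      rw [Fintype.sum_prod_type, Fintype.sum_prod_type] at h7
      norm_num at h7
      exact h7
    rw [h1]
    calc cc z θ m x ^ r ≤ (3 * (θ + ∑ i, ∑ j, ‖S (anti z i j) x‖)) ^ r :=
          Real.rpow_le_rpow (cc_pos z hθ m x).le h2 hr.le
      _ = 3 ^ r * (θ + ∑ i, ∑ j, ‖S (anti z i j) x‖) ^ r :=
          Real.mul_rpow (by norm_num) (by positivity)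
      _ ≤ 3 ^ r * (2 ^ r * (θ ^ r + (∑ i, ∑ j, ‖S (anti z i j) x‖) ^ r)) := by
          gcongr
          exact rpow_add_le hr hθ.le h5
      _ ≤ 3 ^ r * (2 ^ r * (9 ^ r * θ ^ r + 9 ^ r * ∑ i, ∑ j, ‖S (anti z i j) x‖ ^ r)) := by
          have h8 : θ ^ r ≤ 9 ^ r * θ ^ r :=
            le_mul_of_one_le_left (by positivity) (Real.one_le_rpow (by norm_num) hr.le)
          gcongr
      _ = _ := by ring
  have hsm := (sp_aa hZ hθ m).smooth.continuous
  calc ∫ x in cube, aa z θ m x ^ (2 * r)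
      ≤ ∫ x in cube, 3 ^ r * 2 ^ r * 9 ^ r * (θ ^ r + ∑ i, ∑ j, ‖S (anti z i j) x‖ ^ r) := by
        refine integral_mono (integrableOn_cube (hsm.rpow_const fun _ => Or.inr (by positivity)))
          (integrableOn_cube ?_) hpt
        exact continuous_const.mul (continuous_const.add (continuous_finsetSum _ fun i _ =>
          continuous_finsetSum _ fun j _ => hSr i j))
    _ = _ := by
        rw [integral_const_mul, integral_add (integrableOn_cube continuous_const)
          (integrableOn_cube (continuous_finsetSum _ fun i _ =>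
            continuous_finsetSum _ fun j _ => hSr i j)),
          integral_finsetSum _ fun i _ => integrableOn_cube
            (continuous_finsetSum _ fun j _ => hSr i j)]
        have e : ∀ i, ∫ x in cube, ∑ j, ‖S (anti z i j) x‖ ^ r
            = ∑ j, ∫ x in cube, ‖S (anti z i j) x‖ ^ r := fun i =>
          integral_finsetSum _ fun j _ => integrableOn_cube (hSr i j)
        simp_rw [e]
        rw [moa, integral_const, Measure.real, Measure.restrict_apply_univ, volume_cube]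
        simp

/-- A small parameter for finitely many exponents. -/
theorem exists_small (F : Finset ℝ) (hF : ∀ r ∈ F, 0 < r) {θ : ℝ} (hθ : 0 < θ) :
    ∃ ε : ℝ, 0 < ε ∧ ε ≤ θ ∧ ∀ r ∈ F, ε ^ r ≤ θ := by
  have h1 : ∀ r ∈ F, ∀ᶠ ε in 𝓝[>] (0 : ℝ), ε ^ r ≤ θ := by
    intro r hr
    have h2 : Tendsto (fun ε : ℝ => ε ^ r) (𝓝 0) (𝓝 ((0 : ℝ) ^ r)) :=
      (Real.continuousAt_rpow_const 0 r (Or.inr (hF r hr).le))
    rw [Real.zero_rpow (hF r hr).ne'] at h2
    exact (h2.mono_left nhdsWithin_le_nhds).eventually (ge_mem_nhds hθ)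
  have h3 : ∀ᶠ ε in 𝓝[>] (0 : ℝ), ∀ r ∈ F, ε ^ r ≤ θ := (Filter.eventually_all_finset F).2 h1
  have h4 : ∀ᶠ ε in 𝓝[>] (0 : ℝ), 0 < ε := self_mem_nhdsWithin
  have h5 : ∀ᶠ ε in 𝓝[>] (0 : ℝ), ε ≤ θ := nhdsWithin_le_nhds (ge_mem_nhds hθ)
  obtain ⟨ε, a, b, c⟩ := (h4.and (h5.and h3)).exists
  exact ⟨ε, a, b, c⟩

/-- The error of the truncated decomposition. -/
theorem err_le {Z : Finset K3} {z : Cf} (h0 : (0 : K3) ∉ Z) (hZ : ∀ k ∉ Z, z k = 0) (hz : Herm z)
    (hd : Dv z) {θ M : ℝ} (hθ : 0 < θ) (hM0 : 0 ≤ M) (hMm : ∀ m, N0 (sf z θ m) ≤ M)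
    {P : Finset K3} (hPs : ∀ m, N0 (sf z θ m - rs P (sf z θ m)) ≤ θ / (432 * Real.pi * (M + 1)))
    (B : Finset K3) :
    ∑ k ∈ B, ‖z k - ∑ m, nl (rs P (sf z θ m)) (rs P (sf z θ m)) k‖ / len k ≤ θ := by
  have hN0 : ∀ m, 0 ≤ N0 (sf z θ m) := fun m => by
    rw [N0_eq]; exact tsum_nonneg fun _ => norm_nonneg _
  have hpi := Real.pi_pos
  have hl := fun m => l1_sf hZ hθ m
  have hr : ∀ m, L1 (rs P (sf z θ m)) := fun m => l1_rs P _
  have hrN : ∀ m, N0 (rs P (sf z θ m)) ≤ M := fun m => by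
    refine le_trans ?_ (hMm m)
    rw [N0_eq, N0_eq]
    exact Summable.tsum_le_tsum (norm_rs_le P _) (hr m) (hl m)
  have key : ∀ k, ‖z k - ∑ m, nl (rs P (sf z θ m)) (rs P (sf z θ m)) k‖ / len k
      ≤ ∑ m, (‖nl (sf z θ m - rs P (sf z θ m)) (sf z θ m) k‖ / len k
        + ‖nl (rs P (sf z θ m)) (sf z θ m - rs P (sf z θ m)) k‖ / len k) := by
    intro k
    have e : z k - ∑ m, nl (rs P (sf z θ m)) (rs P (sf z θ m)) k
        = ∑ m, (nl (sf z θ m - rs P (sf z θ m)) (sf z θ m) k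
          + nl (rs P (sf z θ m)) (sf z θ m - rs P (sf z θ m)) k) := by
      rw [← sum_nl h0 hZ hz hd hθ k, ← Finset.sum_sub_distrib]
      refine Finset.sum_congr rfl fun m _ => ?_
      rw [nl_sub_left (hl m) (hr m) (hl m), nl_sub_right (hr m) (hl m) (hr m)]
      simp only [Pi.sub_apply]
      abel
    rw [e]
    have h1 : ‖∑ m, (nl (sf z θ m - rs P (sf z θ m)) (sf z θ m) k
          + nl (rs P (sf z θ m)) (sf z θ m - rs P (sf z θ m)) k)‖
        ≤ ∑ m, (‖nl (sf z θ m - rs P (sf z θ m)) (sf z θ m) k‖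
          + ‖nl (rs P (sf z θ m)) (sf z θ m - rs P (sf z θ m)) k‖) :=
      norm_sum_le_of_le _ fun m _ => norm_add_le _ _
    refine (div_le_div_of_nonneg_right h1 (GD.len_nonneg k)).trans (le_of_eq ?_)
    rw [Finset.sum_div]
    exact Finset.sum_congr rfl fun m _ => add_div _ _ _
  calc ∑ k ∈ B, ‖z k - ∑ m, nl (rs P (sf z θ m)) (rs P (sf z θ m)) k‖ / len k
      ≤ ∑ k ∈ B, ∑ m, (‖nl (sf z θ m - rs P (sf z θ m)) (sf z θ m) k‖ / len k
        + ‖nl (rs P (sf z θ m)) (sf z θ m - rs P (sf z θ m)) k‖ / len k) :=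
        Finset.sum_le_sum fun k _ => key k
    _ = ∑ m, (∑ k ∈ B, ‖nl (sf z θ m - rs P (sf z θ m)) (sf z θ m) k‖ / len k
        + ∑ k ∈ B, ‖nl (rs P (sf z θ m)) (sf z θ m - rs P (sf z θ m)) k‖ / len k) := by
        rw [Finset.sum_comm]
        exact Finset.sum_congr rfl fun m _ => Finset.sum_add_distrib
    _ ≤ ∑ m : Fin 9, (24 * Real.pi * (θ / (432 * Real.pi * (M + 1)) * M)
        + 24 * Real.pi * (M * (θ / (432 * Real.pi * (M + 1))))) := by
        refine Finset.sum_le_sum fun m _ => add_le_add ?_ ?_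
        · refine (sum_nl_le0 ((hl m).sub (hr m)) (hl m) B).trans ?_
          have := mul_le_mul (hPs m) (hMm m) (hN0 m) (by positivity)
          gcongr
        · refine (sum_nl_le0 (hr m) ((hl m).sub (hr m)) B).trans ?_
          have h3 : 0 ≤ N0 (sf z θ m - rs P (sf z θ m)) := by
            rw [N0_eq]; exact tsum_nonneg fun _ => norm_nonneg _
          have := mul_le_mul (hrN m) (hPs m) h3 hM0
          gcongr
    _ = θ * (M / (M + 1)) := by
        rw [Finset.sum_const, Finset.card_univ, Fintype.card_fin, nsmul_eq_mul]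
        push_cast
        field_simp
        ring
    _ ≤ θ := by
        refine mul_le_of_le_one_right hθ.le ?_
        rw [div_le_one (by positivity)]
        linarith

/-- The geometric decomposition with finitely many moments. -/
theorem geoQ {Z : Finset K3} {z : Cf} (h0 : (0 : K3) ∉ Z) (hZ : ∀ k ∉ Z, z k = 0) (hz : Herm z)
    (hd : Dv z) (F : Finset ℝ) (hF : ∀ r ∈ F, 0 < r) {θ' : ℝ} (hθ' : 0 < θ') :
    ∃ (J : ℕ) (n : Fin J → K3) (s : Fin J → Cf) (P : Finset K3), 0 < J ∧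
      (∀ j, n j ≠ 0) ∧ (∀ j, ∀ p ∉ P, s j p = 0) ∧ (∀ j, Herm (s j)) ∧
      (∀ j p, kd (n j) (s j p) = 0) ∧
      (∑ j, ∑ p ∈ P, ‖s j p‖ ^ 2 ≤ 27 * (al z + θ')) ∧
      (∀ r ∈ F, ∑ j, mo (2 * r) (s j) ≤ kq r * (moa r z + θ')) ∧
      ∀ B : Finset K3, ∑ k ∈ B, ‖z k - ∑ j, nl (s j) (s j) k‖ / len k ≤ θ' := by
  obtain ⟨θ, hθ, hθθ, hθF⟩ := exists_small F hF hθ'
  obtain ⟨κ, hκ, -, hκF⟩ := exists_small (F.image fun r => 2 * r) (by
    intro r hr
    obtain ⟨r', hr', rfl⟩ := Finset.mem_image.1 hr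
    have := hF r' hr'
    positivity) hθ'
  set M : ℝ := ∑ m, N0 (sf z θ m) with hM
  have hN0 : ∀ m, 0 ≤ N0 (sf z θ m) := fun m => by
    rw [N0_eq]; exact tsum_nonneg fun _ => norm_nonneg _
  have hMm : ∀ m, N0 (sf z θ m) ≤ M := fun m =>
    Finset.single_le_sum (f := fun m => N0 (sf z θ m)) (fun m _ => hN0 m) (Finset.mem_univ m)
  have hM0 : 0 ≤ M := Finset.sum_nonneg fun m _ => hN0 m
  have hpi := Real.pi_pos
  obtain ⟨P, hP, hPs'⟩ := exists_rs (fun m => l1_sf hZ hθ m)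
    (ε := min κ (θ / (432 * Real.pi * (M + 1)))) (lt_min hκ (by positivity))
  have hPs : ∀ m, N0 (sf z θ m - rs P (sf z θ m)) ≤ θ / (432 * Real.pi * (M + 1)) := fun m =>
    (hPs' m).trans (min_le_right _ _)
  have hPκ : ∀ m, N0 (sf z θ m - rs P (sf z θ m)) ≤ κ := fun m => (hPs' m).trans (min_le_left _ _)
  refine ⟨9, nn, fun m => rs P (sf z θ m), P, by norm_num, nn_ne, fun m p hp => if_neg hp,
    fun m => herm_rs hP (herm_sf m), ?_, ?_, ?_, ?_⟩
  · intro m p
    simp only [rs]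
    split_ifs
    · rw [kd_sf, nn_xi, Int.cast_zero, mul_zero]
    · exact kd_zero_right _
  · exact (sum_sq_sf hZ hθ P).trans (by linarith)
  · intro r hr
    have hr0 := hF r hr
    have hmoa : 0 ≤ moa r z := Finset.sum_nonneg fun i _ => Finset.sum_nonneg fun j _ =>
      integral_nonneg fun x => Real.rpow_nonneg (norm_nonneg _) _
    have hκr : κ ^ (2 * r) ≤ θ' := hκF (2 * r) (Finset.mem_image.2 ⟨r, hr, rfl⟩)
    have h1 : ∀ m i, ∫ x in cube, ‖S (fun k => rs P (sf z θ m) k i) x‖ ^ (2 * r)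
        ≤ 2 ^ (2 * r) * (3 ^ r * 2 ^ r * 9 ^ r * (θ ^ r + moa r z) + κ ^ (2 * r)) := by
      intro m i
      have s2 : Summable fun k => rs P (sf z θ m) k i :=
        Summable.of_norm (Summable.of_nonneg_of_le (fun _ => norm_nonneg _)
          (fun k => norm_le_pi_norm (rs P (sf z θ m) k) i) (l1_rs P _))
      have hc := (S_continuous s2).norm.rpow_const (p := 2 * r) fun _ => Or.inr (by positivity)
      have ha := ((sp_aa hZ hθ m).smooth.continuous).rpow_const (p := 2 * r)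
        fun _ => Or.inr (by positivity)
      calc ∫ x in cube, ‖S (fun k => rs P (sf z θ m) k i) x‖ ^ (2 * r)
          ≤ ∫ x in cube, 2 ^ (2 * r) * (aa z θ m x ^ (2 * r) + κ ^ (2 * r)) := by
            refine integral_mono (integrableOn_cube hc)
              (integrableOn_cube (continuous_const.mul (ha.add continuous_const))) fun x => ?_
            have h2 : ‖S (fun k => rs P (sf z θ m) k i) x‖ ≤ aa z θ m x + κ :=
              (norm_S_rs_le hZ hθ m P i x).trans (by linarith [hPκ m])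
            exact (Real.rpow_le_rpow (norm_nonneg _) h2 (by positivity)).trans
              (rpow_add_le (by positivity) (Real.sqrt_nonneg _) hκ.le)
        _ = 2 ^ (2 * r) * ((∫ x in cube, aa z θ m x ^ (2 * r)) + κ ^ (2 * r)) := by
            rw [integral_const_mul, integral_add (integrableOn_cube ha)
              (integrableOn_cube continuous_const), integral_const, Measure.real,
              Measure.restrict_apply_univ, volume_cube]
            simp
        _ ≤ _ := by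
            have h3 := int_aa_le hZ hθ m hr0
            gcongr
    have hθr : θ ^ r ≤ θ' := hθF r hr
    set Q : ℝ := 3 ^ r * 2 ^ r * 9 ^ r with hQ
    have hQ0 : 0 < Q := by positivity
    set T : ℝ := 2 ^ (2 * r) with hT
    have hT0 : 0 < T := by positivity
    have h2 : ∑ m : Fin 9, mo (2 * r) (rs P (sf z θ m)) ≤ 27 * (T * (Q * (θ' + moa r z) + θ')) := by
      calc ∑ m : Fin 9, mo (2 * r) (rs P (sf z θ m))
          ≤ ∑ _m : Fin 9, ∑ _i : Fin 3, T * (Q * (θ' + moa r z) + θ') := by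
            refine Finset.sum_le_sum fun m _ => Finset.sum_le_sum fun i _ => (h1 m i).trans ?_
            gcongr
        _ = _ := by
            simp only [Finset.sum_const, Finset.card_univ, Fintype.card_fin, nsmul_eq_mul]
            push_cast
            ring
    refine h2.trans ?_
    rw [kq, ← hQ, ← hT]
    have h4 : 0 ≤ T * (Q * moa r z) := by positivity
    have h5 : 0 ≤ T * (Q * θ') := by positivity
    have h6 : 0 ≤ T * moa r z := by positivity
    have h7 : 0 ≤ T * θ' := by positivity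
    nlinarith
  · intro B
    exact (err_le h0 hZ hz hd hθ hM0 hMm hPs B).trans hθθ

end Pool.Agent.Run7.h744.WS
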