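import Pool.Agent.Run7.h782.WS.Defs
import Pool.Agent.Run7.h782.GS.Trunc

/-!
Piece W1a: the geometric decomposition of a symmetric antidivergence.
-/

set_option autoImplicit false

open MeasureTheory Set Filter Topology
open scoped ContDiff ComplexConjugate

namespace Pool.Agent.Run7.h744.WS

open H459R3.NS Pool.Agent.Run7.h782 Pool.Agent.Run7.h782.GD Pool.Agent.Run7.h782.GS
open Pool.Agent.Run7.h782.WS Pool.Agent.Run7.h32.GD

/-- The nine directions. -/
def xi : Fin 9 → K3 := ![![1, 0, 0], ![0, 1, 0], ![0, 0, 1], ![1, 1, 0], ![1, -1, 0], ![1, 0, 1],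
  ![1, 0, -1], ![0, 1, 1], ![0, 1, -1]]

/-- Frequencies orthogonal to the directions. -/
def nn : Fin 9 → K3 := ![![0, 1, 0], ![0, 0, 1], ![1, 0, 0], ![0, 0, 1], ![0, 0, 1], ![0, 1, 0],
  ![0, 1, 0], ![1, 0, 0], ![1, 0, 0]]

/-- The coefficients of the decomposition. -/
noncomputable def cf (ρ : ℝ) (r : Fin 3 → Fin 3 → ℝ) : Fin 9 → ℝ :=
  ![ρ + r 0 0, ρ + r 1 1, ρ + r 2 2, ρ + r 0 1 / 2, ρ - r 0 1 / 2, ρ + r 0 2 / 2, ρ - r 0 2 / 2,
    ρ + r 1 2 / 2, ρ - r 1 2 / 2]

theorem nn_ne (m : Fin 9) : nn m ≠ 0 := by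
  revert m
  decide

theorem xi_le (m : Fin 9) (i : Fin 3) : |xi m i| ≤ 1 := by
  revert m i
  decide

theorem nn_xi (m : Fin 9) : ∑ i, nn m i * xi m i = 0 := by
  revert m
  decide

theorem sum_cf (ρ : ℝ) (r : Fin 3 → Fin 3 → ℝ) (hr : ∀ i j, r i j = r j i) (i j : Fin 3) :
    ∑ m, cf ρ r m * ((xi m j : ℝ) * (xi m i : ℝ)) = r i j + if i = j then 5 * ρ else 0 := by
  have h10 := hr 1 0
  have h20 := hr 2 0
  have h21 := hr 2 1
  fin_cases i <;> fin_cases j <;>
    simp [Fin.sum_univ_succ, cf, xi, h10, h20, h21] <;> ring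

theorem cf_bd {ρ q : ℝ} {r : Fin 3 → Fin 3 → ℝ} (hρ : ρ = 2 * q) (hr : ∀ i j, |r i j| ≤ q)
    (m : Fin 9) : q ≤ cf ρ r m ∧ cf ρ r m ≤ 3 * q := by
  have h := fun i j => abs_le.1 (hr i j)
  have h00 := h 0 0
  have h11 := h 1 1
  have h22 := h 2 2
  have h01 := h 0 1
  have h02 := h 0 2
  have h12 := h 1 2
  subst hρ
  fin_cases m <;> simp [cf] <;> constructor <;> linarith

section real

variable (z : Cf)

/-- The entries of the antidivergence. -/
noncomputable def rr (i j : Fin 3) (x : V) : ℝ := (S (anti z i j) x).re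

theorem anti_comm (i j : Fin 3) : anti z i j = anti z j i := by
  funext k
  simp only [anti]
  ring

theorem rr_comm (i j : Fin 3) : rr z i j = rr z j i := by
  funext x
  rw [rr, rr, anti_comm]

variable {z} {Z : Finset K3} (hZ : ∀ k ∉ Z, z k = 0) (hz : Herm z)

include hZ in
theorem anti_supp (i j : Fin 3) {k : K3} (hk : k ∉ Z) : anti z i j k = 0 := by
  simp [anti, hZ k hk]

include hZ in
theorem anti_summable (i j : Fin 3) : Summable (anti z i j) :=
  summable_of_ne_finset_zero fun _ hk => anti_supp hZ i j hk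

include hz in
theorem anti_herm (i j : Fin 3) (k : K3) : anti z i j (-k) = conj (anti z i j k) := by
  simp only [anti, hz k i, hz k j, Pool.Agent.Run7.h782.GD.sq_neg, Pi.neg_apply, map_div₀, map_mul, map_add,
    Complex.conj_I, Complex.conj_ofReal, map_ofNat, map_intCast, Int.cast_neg]
  rw [show (2 * (Real.pi : ℂ) * -Complex.I * (GD.sq k : ℂ))
    = -(2 * (Real.pi : ℂ) * Complex.I * (GD.sq k : ℂ)) by ring, div_neg, ← neg_div]
  congr 1
  ring

include hZ in
theorem S_anti (i j : Fin 3) (x : V) : S (anti z i j) x = ∑ k ∈ Z, anti z i j k * ee k x := by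
  rw [S]
  exact tsum_eq_sum fun k hk => by rw [anti_supp hZ i j hk, zero_mul]

include hZ in
theorem sp_rr (i j : Fin 3) : SP (rr z i j) where
  smooth := by
    have h : rr z i j = fun x => (∑ k ∈ Z, anti z i j k * ee k x).re := by
      funext x
      rw [rr, S_anti hZ]
    rw [h]
    exact Complex.reCLM.contDiff.comp (ContDiff.sum fun k _ => contDiff_const.mul (ee_contDiff k))
  per := by
    intro m x
    rw [rr, rr, S_anti hZ, S_anti hZ]
    simp_rw [ee_per _ m x]

include hZ hz in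
theorem fr_rr (i j : Fin 3) (k : K3) : fr (rr z i j) k = anti z i j k :=
  fr_S (anti_summable hZ i j) (anti_herm hz i j) k

end real

theorem sum_sq_le_sq {ι : Type*} {s : Finset ι} {f : ι → ℝ} (hf : ∀ i ∈ s, 0 ≤ f i) :
    ∑ i ∈ s, f i ^ 2 ≤ (∑ i ∈ s, f i) ^ 2 := by
  rw [pow_two (∑ i ∈ s, f i), Finset.sum_mul]
  refine Finset.sum_le_sum fun i hi => ?_
  rw [pow_two]
  exact mul_le_mul_of_nonneg_left (Finset.single_le_sum hf hi) (hf i hi)

/-- The square root of the sum of squares. -/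
noncomputable def qq (z : Cf) (θ : ℝ) (x : V) : ℝ :=
  Real.sqrt (θ ^ 2 + ∑ i, ∑ j, rr z i j x ^ 2)

theorem arg_pos (z : Cf) {θ : ℝ} (hθ : 0 < θ) (x : V) :
    0 < θ ^ 2 + ∑ i, ∑ j, rr z i j x ^ 2 := by positivity

theorem qq_pos (z : Cf) {θ : ℝ} (hθ : 0 < θ) (x : V) : 0 < qq z θ x :=
  Real.sqrt_pos.2 (arg_pos z hθ x)

theorem rr_le (z : Cf) {θ : ℝ} (i j : Fin 3) (x : V) :
    |rr z i j x| ≤ qq z θ x := by
  refine Real.abs_le_sqrt ?_
  have h1 : rr z i j x ^ 2 ≤ ∑ j, rr z i j x ^ 2 :=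
    Finset.single_le_sum (f := fun j => rr z i j x ^ 2) (fun _ _ => by positivity)
      (Finset.mem_univ j)
  have h2 : ∑ j, rr z i j x ^ 2 ≤ ∑ i, ∑ j, rr z i j x ^ 2 :=
    Finset.single_le_sum (f := fun i => ∑ j, rr z i j x ^ 2) (fun _ _ => by positivity)
      (Finset.mem_univ i)
  have h3 : 0 ≤ θ ^ 2 := by positivity
  linarith

theorem qq_le (z : Cf) {θ : ℝ} (hθ : 0 < θ) (x : V) :
    qq z θ x ≤ θ + ∑ i, ∑ j, |rr z i j x| := by
  refine Real.sqrt_le_iff.2 ⟨by positivity, ?_⟩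
  have h0 : ∀ i j, 0 ≤ |rr z i j x| := fun i j => abs_nonneg _
  have h1 : ∑ i, ∑ j, rr z i j x ^ 2 ≤ (∑ i, ∑ j, |rr z i j x|) ^ 2 := by
    calc ∑ i, ∑ j, rr z i j x ^ 2 = ∑ i, ∑ j, |rr z i j x| ^ 2 := by simp_rw [sq_abs]
      _ ≤ ∑ i, (∑ j, |rr z i j x|) ^ 2 :=
          Finset.sum_le_sum fun i _ => sum_sq_le_sq fun j _ => h0 i j
      _ ≤ (∑ i, ∑ j, |rr z i j x|) ^ 2 :=
          sum_sq_le_sq fun i _ => Finset.sum_nonneg fun j _ => h0 i j
  have h2 : 0 ≤ ∑ i, ∑ j, |rr z i j x| := by positivity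
  nlinarith

theorem sp_qq {z : Cf} {Z : Finset K3} (hZ : ∀ k ∉ Z, z k = 0) {θ : ℝ} (hθ : 0 < θ) :
    SP (qq z θ) where
  smooth := by
    refine ContDiff.sqrt ?_ fun x => (arg_pos z hθ x).ne'
    refine contDiff_const.add (ContDiff.sum fun i _ => ContDiff.sum fun j _ => ?_)
    exact (sp_rr hZ i j).smooth.pow 2
  per := by
    intro m x
    simp only [qq]
    simp_rw [(sp_rr hZ _ _).per m x]

/-- The nine positive functions. -/
noncomputable def cc (z : Cf) (θ : ℝ) (m : Fin 9) (x : V) : ℝ :=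
  cf (2 * qq z θ x) (fun i j => rr z i j x) m

theorem cc_bd (z : Cf) (θ : ℝ) (m : Fin 9) (x : V) :
    qq z θ x ≤ cc z θ m x ∧ cc z θ m x ≤ 3 * qq z θ x :=
  cf_bd rfl (fun i j => rr_le z i j x) m

theorem sp_cc {z : Cf} {Z : Finset K3} (hZ : ∀ k ∉ Z, z k = 0) {θ : ℝ} (hθ : 0 < θ) (m : Fin 9) :
    SP (cc z θ m) where
  smooth := by
    have hq := (sp_qq hZ hθ).smooth
    have hr := fun i j => (sp_rr hZ i j).smooth
    have e : ∀ i j : Fin 3, ContDiff ℝ ∞ fun x => 2 * qq z θ x + rr z i j x := fun i j =>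
      (contDiff_const.mul hq).add (hr i j)
    have e1 : ∀ i j : Fin 3, ContDiff ℝ ∞ fun x => 2 * qq z θ x + rr z i j x / 2 := fun i j =>
      (contDiff_const.mul hq).add ((hr i j).div_const 2)
    have e2 : ∀ i j : Fin 3, ContDiff ℝ ∞ fun x => 2 * qq z θ x - rr z i j x / 2 := fun i j =>
      (contDiff_const.mul hq).sub ((hr i j).div_const 2)
    fin_cases m
    exacts [e 0 0, e 1 1, e 2 2, e1 0 1, e2 0 1, e1 0 2, e2 0 2, e1 1 2, e2 1 2]
  per := by
    intro i x
    simp only [cc]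
    rw [(sp_qq hZ hθ).per i x]
    simp_rw [(sp_rr hZ _ _).per i x]

/-- Their roots. -/
noncomputable def aa (z : Cf) (θ : ℝ) (m : Fin 9) (x : V) : ℝ := Real.sqrt (cc z θ m x)

theorem cc_pos (z : Cf) {θ : ℝ} (hθ : 0 < θ) (m : Fin 9) (x : V) : 0 < cc z θ m x :=
  (qq_pos z hθ x).trans_le (cc_bd z θ m x).1

theorem aa_sq (z : Cf) {θ : ℝ} (hθ : 0 < θ) (m : Fin 9) (x : V) :
    aa z θ m x ^ 2 = cc z θ m x := Real.sq_sqrt (cc_pos z hθ m x).le

theorem sp_aa {z : Cf} {Z : Finset K3} (hZ : ∀ k ∉ Z, z k = 0) {θ : ℝ} (hθ : 0 < θ) (m : Fin 9) :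
    SP (aa z θ m) where
  smooth := (sp_cc hZ hθ m).smooth.sqrt fun x => (cc_pos z hθ m x).ne'
  per := by
    intro i x
    simp only [aa]
    rw [(sp_cc hZ hθ m).per i x]

/-- The profiles. -/
noncomputable def sf (z : Cf) (θ : ℝ) (m : Fin 9) : Cf :=
  fun p i => fr (aa z θ m) p * (xi m i : ℂ)

section main

variable {z : Cf} {Z : Finset K3} (hZ : ∀ k ∉ Z, z k = 0) {θ : ℝ} (hθ : 0 < θ)

theorem norm_sf_le (m : Fin 9) (p : K3) : ‖sf z θ m p‖ ≤ ‖fr (aa z θ m) p‖ := by
  refine (pi_norm_le_iff_of_nonneg (norm_nonneg _)).2 fun i => ?_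
  rw [sf, norm_mul]
  refine mul_le_of_le_one_right (norm_nonneg _) ?_
  rw [Complex.norm_intCast]
  exact_mod_cast xi_le m i

include hZ hθ in
theorem summable_fra (m : Fin 9) : Summable (fr (aa z θ m)) :=
  (rap_fr (sp_aa hZ hθ m)).summable

include hZ hθ in
theorem l1_sf (m : Fin 9) : L1 (sf z θ m) :=
  Summable.of_nonneg_of_le (fun _ => norm_nonneg _) (norm_sf_le m) (summable_fra hZ hθ m).norm

theorem herm_sf (m : Fin 9) : Herm (sf z θ m) := by
  intro k i
  simp only [sf, fr_neg, map_mul, map_intCast]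

theorem kd_sf (m : Fin 9) (k p : K3) :
    kd k (sf z θ m p) = fr (aa z θ m) p * ((∑ j, k j * xi m j : ℤ) : ℂ) := by
  simp only [kd, sf]
  push_cast
  rw [Finset.mul_sum]
  exact Finset.sum_congr rfl fun j _ => by ring

/-- The nonlinear term of a profile. -/
theorem nl_sf (hZ : ∀ k ∉ Z, z k = 0) (hθ : 0 < θ) (m : Fin 9) (k : K3) :
    nl (sf z θ m) (sf z θ m) k = prj k (fun i => (2 * Real.pi * Complex.I : ℂ)
      * ∑ j, (k j : ℂ) * (((xi m j : ℝ) * (xi m i : ℝ) : ℝ) : ℂ) * fr (cc z θ m) k) := by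
  have hs := summable_fra hZ hθ m
  have h := integral_ee_S_S (-k) hs hs
  have e1 : (∫ x in cube, ee (-k) x * (S (fr (aa z θ m)) x * S (fr (aa z θ m)) x))
      = fr (cc z θ m) k := by
    change _ = ∫ x in cube, ee (-k) x * ((cc z θ m x : ℝ) : ℂ)
    refine integral_congr_ae (Eventually.of_forall fun x => ?_)
    simp only [S_fr (sp_aa hZ hθ m), ← aa_sq z hθ m x]
    push_cast
    ring
  rw [e1] at h
  have hc : HasSum (fun p => kd k (sf z θ m p) • sf z θ m (k - p))
      (fun i => ((∑ j, k j * xi m j : ℤ) : ℂ) * (xi m i : ℂ) * fr (cc z θ m) k) := by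
    rw [Pi.hasSum]
    intro i
    have h2 := h.mul_left (((∑ j, k j * xi m j : ℤ) : ℂ) * (xi m i : ℂ))
    have e3 : (fun p => (kd k (sf z θ m p) • sf z θ m (k - p)) i)
        = fun p => ((∑ j, k j * xi m j : ℤ) : ℂ) * (xi m i : ℂ)
          * (fr (aa z θ m) p * fr (aa z θ m) (- -k - p)) := by
      funext p
      rw [Pi.smul_apply, kd_sf, sf, smul_eq_mul, neg_neg]
      ring
    rw [e3]
    exact h2
  rw [nl, hc.tsum_eq, ← prj_smul]
  congr 1
  funext i
  rw [Pi.smul_apply, smul_eq_mul, ← Finset.sum_mul]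
  push_cast
  rw [Finset.sum_mul]
  congr 2
  exact Finset.sum_congr rfl fun j _ => by ring

/-- The sum of the nine terms. -/
theorem sum_nl (h0 : (0 : K3) ∉ Z) (hZ : ∀ k ∉ Z, z k = 0) (hz : Herm z) (hd : Dv z) (hθ : 0 < θ)
    (k : K3) : ∑ m, nl (sf z θ m) (sf z θ m) k = z k := by
  by_cases hk : k = 0
  · subst hk
    simp only [nl_zero_mode, Finset.sum_const_zero, hZ 0 h0]
  have hsq := (sq_pos' hk).ne'
  have hsqc : (GD.sq k : ℂ) ≠ 0 := by exact_mod_cast hsq
  have hpi : (2 * Real.pi * Complex.I : ℂ) ≠ 0 := by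
    simp [Real.pi_ne_zero]
  have key : ∀ i j : Fin 3, ∑ m, (((xi m j : ℝ) * (xi m i : ℝ) : ℝ) : ℂ) * fr (cc z θ m) k
      = anti z i j k + if i = j then 5 * (2 * fr (qq z θ) k) else 0 := by
    intro i j
    have hc : ∀ f : V → ℝ, SP f → Integrable (fun x => ee (-k) x * ((f x : ℝ) : ℂ))
        (volume.restrict cube) := fun f hf =>
      integrableOn_cube ((ee_continuous _).mul (Complex.continuous_ofReal.comp hf.smooth.continuous))
    have e1 : ∀ m, (((xi m j : ℝ) * (xi m i : ℝ) : ℝ) : ℂ) * fr (cc z θ m) k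
        = ∫ x in cube, (((xi m j : ℝ) * (xi m i : ℝ) : ℝ) : ℂ)
          * (ee (-k) x * ((cc z θ m x : ℝ) : ℂ)) := fun m => (integral_const_mul _ _).symm
    have e2 : anti z i j k = ∫ x in cube, ee (-k) x * ((rr z i j x : ℝ) : ℂ) :=
      (fr_rr hZ hz i j k).symm
    have e3 : (if i = j then 5 * (2 * fr (qq z θ) k) else 0 : ℂ)
        = ∫ x in cube, (if i = j then 10 else 0 : ℂ) * (ee (-k) x * ((qq z θ x : ℝ) : ℂ)) := by
      rw [integral_const_mul]
      change _ = _ * fr (qq z θ) k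
      split_ifs <;> ring
    rw [Finset.sum_congr rfl fun m _ => e1 m, e2, e3,
      ← integral_finsetSum _ fun m _ => (hc _ (sp_cc hZ hθ m)).const_mul _,
      ← integral_add (hc _ (sp_rr hZ i j)) ((hc _ (sp_qq hZ hθ)).const_mul _)]
    refine integral_congr_ae (Eventually.of_forall fun x => ?_)
    have h := sum_cf (2 * qq z θ x) (fun i j => rr z i j x)
      (fun i j => by rw [rr_comm]) i j
    have h' := congrArg (fun y : ℝ => ee (-k) x * (y : ℂ)) h
    simp only at h' ⊢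
    push_cast at h' ⊢
    rw [Finset.mul_sum] at h'
    convert h' using 1
    · exact Finset.sum_congr rfl fun m _ => by simp only [cc]; ring
    · split_ifs <;> push_cast <;> ring
  rw [Finset.sum_congr rfl fun m _ => nl_sf hZ hθ m k]
  have e : (∑ m, prj k (fun i => (2 * Real.pi * Complex.I : ℂ)
      * ∑ j, (k j : ℂ) * (((xi m j : ℝ) * (xi m i : ℝ) : ℝ) : ℂ) * fr (cc z θ m) k))
      = prj k (z k + (2 * Real.pi * Complex.I * (5 * (2 * fr (qq z θ) k)) : ℂ)
        • fun i => (k i : ℂ)) := by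
    simp_rw [← prjL_apply]
    rw [← map_sum]
    congr 1
    funext i
    rw [Finset.sum_apply, ← Finset.mul_sum, Finset.sum_comm]
    have e4 : ∀ j, ∑ m, (k j : ℂ) * (((xi m j : ℝ) * (xi m i : ℝ) : ℝ) : ℂ) * fr (cc z θ m) k
        = (k j : ℂ) * (anti z i j k + if i = j then 5 * (2 * fr (qq z θ) k) else 0) := by
      intro j
      rw [← key i j, Finset.mul_sum]
      exact Finset.sum_congr rfl fun m _ => by ring
    simp_rw [e4]
    have hdk := hd k
    rw [kd] at hdk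
    have e5 : ∑ j, (k j : ℂ) * (anti z i j k + if i = j then 5 * (2 * fr (qq z θ) k) else 0)
        = z k i / (2 * Real.pi * Complex.I) + (k i : ℂ) * (5 * (2 * fr (qq z θ) k)) := by
      have e6 : ∀ j, (k j : ℂ) * (anti z i j k + if i = j then 5 * (2 * fr (qq z θ) k) else 0)
          = (z k i * (k j : ℂ) ^ 2 + (k i : ℂ) * ((k j : ℂ) * z k j))
            / (2 * Real.pi * Complex.I * (GD.sq k : ℂ))
            + if i = j then (k i : ℂ) * (5 * (2 * fr (qq z θ) k)) else 0 := by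
        intro j
        rw [anti]
        split_ifs with hij
        · subst hij; ring
        · ring
      simp_rw [e6]
      rw [Finset.sum_add_distrib, Finset.sum_ite_eq, if_pos (Finset.mem_univ i),
        ← Finset.sum_div, Finset.sum_add_distrib, ← Finset.mul_sum, ← Finset.mul_sum, hdk,
        mul_zero, add_zero]
      have e7 : ∑ j, (k j : ℂ) ^ 2 = (GD.sq k : ℂ) := by
        rw [GD.sq]; push_cast; rfl
      rw [e7]
      field_simp
    rw [e5, Pi.add_apply, Pi.smul_apply, smul_eq_mul]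
    field_simp
  rw [e, prj_add, prj_smul, prj_of_kd_eq_zero (hd k)]
  have e8 : prj k (fun i => (k i : ℂ)) = 0 := by
    funext i
    have e9 : kd k (fun i => (k i : ℂ)) = (GD.sq k : ℂ) := by
      rw [kd, GD.sq]; push_cast
      exact Finset.sum_congr rfl fun j _ => by ring
    rw [prj, e9, div_self hsqc, mul_one, sub_self, Pi.zero_apply]
  rw [e8, smul_zero, add_zero]

/-- Restriction to a finite set of frequencies. -/
noncomputable def rs (P : Finset K3) (a : Cf) : Cf := fun k => if k ∈ P then a k else 0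

theorem l1_rs (P : Finset K3) (a : Cf) : L1 (rs P a) := L1.of_supp (B := P) fun _ hk => if_neg hk

theorem norm_rs_le (P : Finset K3) (a : Cf) (k : K3) : ‖rs P a k‖ ≤ ‖a k‖ := by
  rw [rs]
  split_ifs
  · exact le_rfl
  · rw [norm_zero]; exact norm_nonneg _

theorem herm_rs {P : Finset K3} (hP : ∀ k, -k ∈ P ↔ k ∈ P) {a : Cf} (ha : Herm a) :
    Herm (rs P a) := by
  intro k i
  by_cases h : k ∈ P
  · rw [rs, rs, if_pos h, if_pos ((hP k).2 h)]
    exact ha k i
  · rw [rs, rs, if_neg h, if_neg fun h' => h ((hP k).1 h')]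
    simp

theorem exists_rs {ι : Type*} [Fintype ι] {s : ι → Cf} (hs : ∀ m, L1 (s m)) {ε : ℝ} (hε : 0 < ε) :
    ∃ P : Finset K3, (∀ k, -k ∈ P ↔ k ∈ P) ∧ ∀ m, N0 (s m - rs P (s m)) ≤ ε := by
  classical
  have hf : Summable fun k => ∑ m, ‖s m k‖ := summable_sum fun m _ => hs m
  obtain ⟨P₀, hP₀⟩ := summable_iff_vanishing_norm.1 hf ε hε
  refine ⟨P₀ ∪ P₀.image fun k => -k, fun k => ?_, fun m => ?_⟩
  · simp only [Finset.mem_union, Finset.mem_image]
    constructor
    · rintro (h | ⟨a, ha, hak⟩)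
      · exact Or.inr ⟨-k, h, neg_neg k⟩
      · exact Or.inl (neg_injective hak ▸ ha)
    · rintro (h | ⟨a, ha, hak⟩)
      · exact Or.inr ⟨k, h, rfl⟩
      · exact Or.inl (by rw [← hak, neg_neg]; exact ha)
  · set P := P₀ ∪ P₀.image fun k => -k with hP
    rw [N0_eq]
    refine Summable.tsum_le_of_sum_le ((hs m).sub (l1_rs P (s m))) fun A => ?_
    have h1 : ∑ k ∈ A, ‖(s m - rs P (s m)) k‖ ≤ ∑ k ∈ A \ P, ∑ m, ‖s m k‖ := by
      rw [← Finset.sum_inter_add_sum_sdiff A P]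
      have h2 : ∑ k ∈ A ∩ P, ‖(s m - rs P (s m)) k‖ = 0 := by
        refine Finset.sum_eq_zero fun k hk => ?_
        rw [Pi.sub_apply, rs, if_pos (Finset.mem_inter.1 hk).2, sub_self, norm_zero]
      rw [h2, zero_add]
      refine Finset.sum_le_sum fun k hk => ?_
      rw [Pi.sub_apply, rs, if_neg (Finset.mem_sdiff.1 hk).2, sub_zero]
      exact Finset.single_le_sum (f := fun m => ‖s m k‖) (fun _ _ => norm_nonneg _)
        (Finset.mem_univ m)
    have h3 := hP₀ (A \ P) (Finset.disjoint_left.2 fun k hk hk' =>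
      (Finset.mem_sdiff.1 hk).2 (Finset.mem_union_left _ hk'))
    rw [Real.norm_eq_abs] at h3
    exact h1.trans ((le_abs_self _).trans h3.le)

include hZ hθ in
/-- The size of the profiles in the square mean. -/
theorem sum_sq_sf (P : Finset K3) :
    ∑ m, ∑ p ∈ P, ‖rs P (sf z θ m) p‖ ^ 2 ≤ 27 * (al z + θ) := by
  have hq := (sp_qq hZ hθ).smooth.continuous
  have h1 : ∀ m, ∑ p ∈ P, ‖rs P (sf z θ m) p‖ ^ 2 ≤ ∫ x in cube, 3 * qq z θ x := by
    intro m
    have hs := summable_fra hZ hθ m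
    calc ∑ p ∈ P, ‖rs P (sf z θ m) p‖ ^ 2 ≤ ∑ p ∈ P, ‖fr (aa z θ m) p‖ ^ 2 := by
          refine Finset.sum_le_sum fun p _ => ?_
          have := (norm_rs_le P (sf z θ m) p).trans (norm_sf_le m p)
          gcongr
      _ ≤ ∑' p, ‖fr (aa z θ m) p‖ ^ 2 :=
          (summable_sq hs).sum_le_tsum P fun _ _ => by positivity
      _ = ∫ x in cube, aa z θ m x ^ 2 := by rw [← n2_sq, n2_fr (sp_aa hZ hθ m)]
      _ = ∫ x in cube, cc z θ m x := by simp_rw [aa_sq z hθ m]
      _ ≤ ∫ x in cube, 3 * qq z θ x := by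
          refine integral_mono (integrableOn_cube (sp_cc hZ hθ m).smooth.continuous)
            (integrableOn_cube (continuous_const.mul hq)) fun x => (cc_bd z θ m x).2
  have h2 : ∫ x in cube, qq z θ x ≤ θ + al z := by
    have hc : ∀ i j, Continuous (rr z i j) := fun i j => (sp_rr hZ i j).smooth.continuous
    have hS : ∀ i j, Continuous (S (anti z i j)) := fun i j => S_continuous (anti_summable hZ i j)
    calc ∫ x in cube, qq z θ x ≤ ∫ x in cube, (θ + ∑ i, ∑ j, ‖S (anti z i j) x‖) := by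
          refine integral_mono (integrableOn_cube hq) (integrableOn_cube (by fun_prop)) fun x => ?_
          refine (qq_le z hθ x).trans ?_
          refine add_le_add le_rfl (Finset.sum_le_sum fun i _ => Finset.sum_le_sum fun j _ => ?_)
          exact Complex.abs_re_le_norm _
      _ = θ + al z := by
          rw [integral_add (integrableOn_cube continuous_const) (integrableOn_cube (by fun_prop)),
            integral_finsetSum _ fun i _ => integrableOn_cube (by fun_prop)]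
          have e : ∀ i, ∫ x in cube, ∑ j, ‖S (anti z i j) x‖ = ∑ j, ∫ x in cube, ‖S (anti z i j) x‖ :=
            fun i => integral_finsetSum _ fun j _ => integrableOn_cube (by fun_prop)
          simp_rw [e]
          rw [al, integral_const, Measure.real, Measure.restrict_apply_univ, volume_cube]
          simp
  calc ∑ m, ∑ p ∈ P, ‖rs P (sf z θ m) p‖ ^ 2 ≤ ∑ m : Fin 9, ∫ x in cube, 3 * qq z θ x :=
        Finset.sum_le_sum fun m _ => h1 m
    _ = 27 * ∫ x in cube, qq z θ x := by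
        rw [integral_const_mul, Finset.sum_const, Finset.card_univ, Fintype.card_fin, nsmul_eq_mul]
        push_cast
        ring
    _ ≤ 27 * (al z + θ) := by linarith

end main

/-- **Piece W1a.** -/
theorem stmGeo : StmGeo := by
  refine ⟨27, by norm_num, ?_⟩
  intro Z z h0 hZ hz hd θ hθ
  set M : ℝ := ∑ m, N0 (sf z θ m) with hM
  have hN0 : ∀ m, 0 ≤ N0 (sf z θ m) := fun m => by
    rw [N0_eq]; exact tsum_nonneg fun _ => norm_nonneg _
  have hMm : ∀ m, N0 (sf z θ m) ≤ M := fun m =>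
    Finset.single_le_sum (f := fun m => N0 (sf z θ m)) (fun m _ => hN0 m) (Finset.mem_univ m)
  have hM0 : 0 ≤ M := Finset.sum_nonneg fun m _ => hN0 m
  have hpi := Real.pi_pos
  obtain ⟨P, hP, hPs⟩ := exists_rs (fun m => l1_sf hZ hθ m)
    (ε := θ / (432 * Real.pi * (M + 1))) (by positivity)
  refine ⟨9, nn, fun m => rs P (sf z θ m), P, by norm_num, nn_ne, fun m p hp => if_neg hp,
    fun m => herm_rs hP (herm_sf m), ?_, sum_sq_sf hZ hθ P, ?_⟩
  · intro m p
    simp only [rs]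
    split_ifs
    · rw [kd_sf, nn_xi, Int.cast_zero, mul_zero]
    · exact kd_zero_right _
  intro B
  have hl := fun m => l1_sf hZ hθ m
  have hr : ∀ m, L1 (rs P (sf z θ m)) := fun m => l1_rs P _
  have hrN : ∀ m, N0 (rs P (sf z θ m)) ≤ M := fun m => by
    refine le_trans ?_ (hMm m)
    rw [N0_eq, N0_eq]
    exact Summable.tsum_le_tsum (norm_rs_le P _) (hr m) (hl m)
  have key : ∀ k, ‖z k - ∑ m, nl (rs P (sf z θ m)) (rs P (sf z θ m)) k‖ / len k
      ≤ ∑ m, (‖nl (sf z θ m - rs P (sf z θ m)) (sf z θ m) k‖ / len k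
        + ‖nl (rs P (sf z θ m)) (sf z θ m - rs P (sf z θ m)) k‖ / len k) := by
    intro k
    have e : z k - ∑ m, nl (rs P (sf z θ m)) (rs P (sf z θ m)) k
        = ∑ m, (nl (sf z θ m - rs P (sf z θ m)) (sf z θ m) k
          + nl (rs P (sf z θ m)) (sf z θ m - rs P (sf z θ m)) k) := by
      rw [← sum_nl h0 hZ hz hd hθ k, ← Finset.sum_sub_distrib]
      refine Finset.sum_congr rfl fun m _ => ?_
      rw [nl_sub_left (hl m) (hr m) (hl m), nl_sub_right (hr m) (hl m) (hr m)]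
      simp only [Pi.sub_apply]
      abel
    rw [e]
    have h1 : ‖∑ m, (nl (sf z θ m - rs P (sf z θ m)) (sf z θ m) k
          + nl (rs P (sf z θ m)) (sf z θ m - rs P (sf z θ m)) k)‖
        ≤ ∑ m, (‖nl (sf z θ m - rs P (sf z θ m)) (sf z θ m) k‖
          + ‖nl (rs P (sf z θ m)) (sf z θ m - rs P (sf z θ m)) k‖) :=
      norm_sum_le_of_le _ fun m _ => norm_add_le _ _
    refine (div_le_div_of_nonneg_right h1 (GD.len_nonneg k)).trans (le_of_eq ?_)
    rw [Finset.sum_div]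
    exact Finset.sum_congr rfl fun m _ => add_div _ _ _
  calc ∑ k ∈ B, ‖z k - ∑ m, nl (rs P (sf z θ m)) (rs P (sf z θ m)) k‖ / len k
      ≤ ∑ k ∈ B, ∑ m, (‖nl (sf z θ m - rs P (sf z θ m)) (sf z θ m) k‖ / len k
        + ‖nl (rs P (sf z θ m)) (sf z θ m - rs P (sf z θ m)) k‖ / len k) :=
        Finset.sum_le_sum fun k _ => key k
    _ = ∑ m, (∑ k ∈ B, ‖nl (sf z θ m - rs P (sf z θ m)) (sf z θ m) k‖ / len k
        + ∑ k ∈ B, ‖nl (rs P (sf z θ m)) (sf z θ m - rs P (sf z θ m)) k‖ / len k) := by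
        rw [Finset.sum_comm]
        exact Finset.sum_congr rfl fun m _ => Finset.sum_add_distrib
    _ ≤ ∑ m : Fin 9, (24 * Real.pi * (θ / (432 * Real.pi * (M + 1)) * M)
        + 24 * Real.pi * (M * (θ / (432 * Real.pi * (M + 1))))) := by
        refine Finset.sum_le_sum fun m _ => add_le_add ?_ ?_
        · refine (sum_nl_le0 ((hl m).sub (hr m)) (hl m) B).trans ?_
          have := mul_le_mul (hPs m) (hMm m) (hN0 m) (by positivity)
          gcongr
        · refine (sum_nl_le0 (hr m) ((hl m).sub (hr m)) B).trans ?_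
          have h3 : 0 ≤ N0 (sf z θ m - rs P (sf z θ m)) := by
            rw [N0_eq]; exact tsum_nonneg fun _ => norm_nonneg _
          have := mul_le_mul (hrN m) (hPs m) h3 hM0
          gcongr
    _ = θ * (M / (M + 1)) := by
        rw [Finset.sum_const, Finset.card_univ, Fintype.card_fin, nsmul_eq_mul]
        push_cast
        field_simp
        ring
    _ ≤ θ := by
        refine mul_le_of_le_one_right hθ.le ?_
        rw [div_le_one (by positivity)]
        linarith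

end Pool.Agent.Run7.h744.WS
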