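import Pool.Agent.Run7.h744.WS.RecH
import Pool.Agent.Run7.h308.WS.IterW

/-!
Piece R2: the infinite iteration for rough data.
-/

set_option autoImplicit false

open MeasureTheory Set Filter Topology
open scoped ENNReal

namespace Pool.Agent.Run7.h744.WS

open H459R3.NS Pool.Agent.Run7.h782 Pool.Agent.Run7.h782.GD Pool.Agent.Run7.h782.GS
open Pool.Agent.Run7.h782.WS Pool.Agent.Run7.h969.GS Pool.Agent.Run7 Pool.Agent.Run7.h308.WS

/-- A coefficient by the norm of the antidivergence. -/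
theorem coef_al {c : Cf} (hc : Summable fun k => ‖c k‖ / len k) (hd : Dv c) (h0 : c 0 = 0)
    (k : K3) : ‖c k‖ ≤ 6 * Real.pi * len k * al c := by
  have hpi := Real.pi_pos
  by_cases hk : k = 0
  · subst hk
    rw [h0]
    simp
  have hl := len_pos hk
  have hsq : (GD.sq k : ℂ) ≠ 0 := by exact_mod_cast (sq_pos' hk).ne'
  have hint : ∀ i j, 0 ≤ ∫ x in cube, ‖S (anti c i j) x‖ := fun i j =>
    integral_nonneg fun x => norm_nonneg _
  have h1 : ∀ i j, ‖anti c i j k‖ ≤ al c := by
    intro i j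
    have e := integral_ee_S (-k) (summable_anti hc i j)
    rw [neg_neg] at e
    rw [← e]
    calc ‖∫ x in cube, ee (-k) x * S (anti c i j) x‖ ≤ ∫ x in cube, ‖S (anti c i j) x‖ := by
          refine (norm_integral_le_integral_norm _).trans (le_of_eq ?_)
          refine integral_congr_ae (Eventually.of_forall fun x => ?_)
          simp only [norm_mul, norm_ee, one_mul]
      _ ≤ ∑ j, ∫ x in cube, ‖S (anti c i j) x‖ :=
          Finset.single_le_sum (f := fun j => ∫ x in cube, ‖S (anti c i j) x‖)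
            (fun j _ => hint i j) (Finset.mem_univ j)
      _ ≤ al c := Finset.single_le_sum
            (f := fun i => ∑ j, ∫ x in cube, ‖S (anti c i j) x‖)
            (fun i _ => Finset.sum_nonneg fun j _ => hint i j) (Finset.mem_univ i)
  have hal : 0 ≤ al c := Finset.sum_nonneg fun i _ => Finset.sum_nonneg fun j _ => hint i j
  refine (pi_norm_le_iff_of_nonneg (by positivity)).2 fun i => ?_
  have e : c k i = 2 * Real.pi * Complex.I * ∑ j, (k j : ℂ) * anti c i j k := by
    have hdk := hd k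
    rw [kd] at hdk
    have e6 : ∀ j, (k j : ℂ) * anti c i j k
        = (c k i * (k j : ℂ) ^ 2 + (k i : ℂ) * ((k j : ℂ) * c k j))
          / (2 * Real.pi * Complex.I * (GD.sq k : ℂ)) := by
      intro j
      rw [anti]
      ring
    simp_rw [e6]
    rw [← Finset.sum_div, Finset.sum_add_distrib, ← Finset.mul_sum, ← Finset.mul_sum, hdk,
      mul_zero, add_zero]
    have e7 : ∑ j, (k j : ℂ) ^ 2 = (GD.sq k : ℂ) := by
      rw [GD.sq]; push_cast; rfl
    rw [e7]
    have hp : (2 * Real.pi * Complex.I : ℂ) ≠ 0 := by simp [Real.pi_ne_zero]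
    field_simp
  rw [e, norm_mul]
  have h2 : ‖(2 * Real.pi * Complex.I : ℂ)‖ = 2 * Real.pi := by
    rw [norm_mul, norm_mul, Complex.norm_I, Complex.norm_real, Real.norm_eq_abs,
      abs_of_pos Real.pi_pos]
    norm_num
  have h3 : ‖∑ j, (k j : ℂ) * anti c i j k‖ ≤ ∑ _j : Fin 3, len k * al c := by
    refine norm_sum_le_of_le _ fun j _ => ?_
    rw [norm_mul, Complex.norm_intCast]
    exact mul_le_mul (abs_le_len k j) (h1 i j) (norm_nonneg _) hl.le
  rw [Finset.sum_const, Finset.card_univ, Fintype.card_fin, nsmul_eq_mul] at h3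
  rw [h2]
  calc 2 * Real.pi * ‖∑ j, (k j : ℂ) * anti c i j k‖
      ≤ 2 * Real.pi * ((3 : ℕ) * (len k * al c)) := by gcongr
    _ = _ := by push_cast; ring

theorem le_of_sq_le_sq' {x y : ℝ} (h : x ^ 2 ≤ y ^ 2) (hy : 0 ≤ y) : x ≤ y :=
  le_of_not_gt fun hc => by nlinarith

/-- **Piece R2.** -/
theorem iterH (hStep : StmStepW) (hLim : StmLim) (hAl : StmAl) : StmIterH := by
  obtain ⟨C₀, hC₀, H⟩ := seqsH hStep
  obtain ⟨Ca0, hCa0, al1, al2, al3⟩ := hAl
  obtain ⟨Ca, hCa, al4⟩ := stmAl2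
  intro ν hν U hU c hc0 hc δ hδ
  obtain ⟨z, A, ε, Hn, hA0, hzl, hzd, hzc, hz2, hz1, hz0, hst, hε0, hε1, hε2, hεa, hHn, hM⟩ :=
    H ν hν U hU c hc0 hc δ hδ
  -- the limit
  obtain ⟨b, hb, hlim⟩ := hLim ν hν (fun j => A (j + 1)) (fun j => ε (j + 1))
    (fun j => (hst j).csol) (fun j => hε0 _) (fun i j hij => hεa (by omega))
    (by
      refine Summable.of_nonneg_of_le (fun j => (hε0 _).le) (fun j => hε1 (j + 1)) ?_
      exact (summable_nat_add_iff 1).2 (summable_geometric_of_lt_one (by norm_num) (by norm_num)))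
    (fun j t ht => (hst (j + 1)).close t ht)
  have htg : ∀ n, Tg ν (A n) := by
    intro n
    cases n with
    | zero => rw [hA0]; exact hU
    | succ n => exact (hst n).tg
  have hcn : ∀ n, Cnt (A n) := fun n => h969.GS.LSol.cnt (htg n).toLSol
  have hbc : ∀ k, ContinuousOn (fun t => b t k) (Ioi 0) := by
    intro k t ht
    have ht' : 0 < t := ht
    have h1 := ((hb (t / 2) (by positivity)).der (t / 2) (by positivity) k).continuousWithinAt
    have h2 : ContinuousWithinAt (fun s => b s k) (Ici (t / 2)) t := by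
      have h3 : ContinuousWithinAt (fun s => (fun s => b (s + t / 2) k) (s - t / 2))
          (Ici (t / 2)) t := by
        refine ContinuousWithinAt.comp (t := Ici 0) (g := fun s => b (s + t / 2) k) ?_
          ((continuous_id.sub continuous_const).continuousWithinAt) fun s hs => ?_
        · rw [show t - t / 2 = t / 2 by ring]
          exact h1
        · have : t / 2 ≤ s := hs
          simp only [mem_Ici]
          linarith
      refine h3.congr (fun s _ => ?_) ?_ <;> simp
    exact (h2.continuousAt (Ici_mem_nhds (by linarith))).continuousWithinAt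
  have hbm : ∀ k, AEMeasurable (fun t => ENNReal.ofReal ‖b t k‖)
      (volume.restrict (Ioc (0 : ℝ) 1)) := fun k =>
    ENNReal.measurable_ofReal.comp_aemeasurable
      (ContinuousOn.aemeasurable ((hbc k).norm.mono fun t ht => ht.1) measurableSet_Ioc)
  have hSm : ∀ n, AEMeasurable (fun t => Sd (A (n + 1) t) (A n t))
      (volume.restrict (Ioc (0 : ℝ) 1)) := fun n => Sd_meas (hcn _) (hcn _)
  have hsm : Measurable fun t : ℝ => ENNReal.ofReal (Real.sqrt t) :=
    ENNReal.measurable_ofReal.comp Real.continuous_sqrt.measurable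
  -- bounds of the members
  have hbd : ∀ n, ∃ M : ℝ, 0 ≤ M ∧ ∀ t, 0 ≤ t → ∀ B : Finset K3, ∑ k ∈ B, ‖A n t k‖ ≤ M := by
    intro n
    obtain ⟨M, hM'⟩ := (htg n).bd
    exact ⟨M, by simpa using hM' 0 le_rfl ∅, hM'⟩
  choose M hM0 hMn using hbd
  have hsumb : ∀ J t, 0 < t → ∑' k, ENNReal.ofReal ‖b t k‖
      ≤ ENNReal.ofReal (M J) + ∑' i, Sd (A (J + i + 1) t) (A (J + i) t) := fun J t ht =>
    sum_le (hlim t ht) (hMn J t ht.le)
  -- a common bound of the square means
  set ρ₂ : ℝ≥0∞ := ENNReal.ofReal (1 / 2) ^ (1 / (2 : ℝ)) with hρ₂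
  have hρ₂1 : ρ₂ < 1 := rho_lt (by norm_num)
  have hAl0 : ∀ n, L1 (A n 0) := fun n => Maj.l1 (htg n).maj le_rfl
  have hal : ∀ n, al (z (n + 1) - A (n + 1) 0) ≤ (2 * Ca + 1) * (1 / 2) ^ n := by
    intro n
    have e1 : z (n + 1) - A (n + 1) 0 = (z (n + 1) - z n) + -(A (n + 1) 0 - z n) := by abel
    have l1 : L1 (z (n + 1) - z n) := (hzl _).sub (hzl _)
    have l2 : L1 (-(A (n + 1) 0 - z n)) := by
      have : L1 (A (n + 1) 0 - z n) := (hAl0 _).sub (hzl _)
      refine this.congr fun k => ?_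
      rw [Pi.neg_apply, norm_neg]
    rw [e1]
    refine (al1 _ _ (l1_div l1) (l1_div l2)).trans ?_
    rw [al2]
    have h1 := (hst n).al0
    have h3 : ∑' k, ‖(z (n + 1) - z n) k‖ ^ 2 / len k ^ 2 ≤ (2 * (1 / 2) ^ n) ^ 2 := by
      have hsq : ∀ m, Summable fun k => ‖c k - z m k‖ ^ 2 / len k ^ 2 := fun m =>
        Summable.of_nonneg_of_le (fun k => by positivity) (fun k => by
          have h5 := hzc m k
          gcongr) hc.sm
      have hs1 : Summable fun k => 2 * (‖c k - z (n + 1) k‖ ^ 2 / len k ^ 2)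
          + 2 * (‖c k - z n k‖ ^ 2 / len k ^ 2) := ((hsq _).mul_left _).add ((hsq _).mul_left _)
      have hpt : ∀ k, ‖(z (n + 1) - z n) k‖ ^ 2 / len k ^ 2
          ≤ 2 * (‖c k - z (n + 1) k‖ ^ 2 / len k ^ 2) + 2 * (‖c k - z n k‖ ^ 2 / len k ^ 2) := by
        intro k
        have e : (z (n + 1) - z n) k = (c k - z n k) - (c k - z (n + 1) k) := by
          rw [Pi.sub_apply]; abel
        have h5 : ‖(z (n + 1) - z n) k‖ ^ 2
            ≤ 2 * ‖c k - z (n + 1) k‖ ^ 2 + 2 * ‖c k - z n k‖ ^ 2 := by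
          rw [e]
          have h6 := norm_sub_le (c k - z n k) (c k - z (n + 1) k)
          have h7 := pow_le_pow_left₀ (norm_nonneg _) h6 2
          nlinarith [sq_nonneg (‖c k - z n k‖ - ‖c k - z (n + 1) k‖)]
        calc ‖(z (n + 1) - z n) k‖ ^ 2 / len k ^ 2
            ≤ (2 * ‖c k - z (n + 1) k‖ ^ 2 + 2 * ‖c k - z n k‖ ^ 2) / len k ^ 2 := by gcongr
          _ = _ := by ring
      calc ∑' k, ‖(z (n + 1) - z n) k‖ ^ 2 / len k ^ 2
          ≤ ∑' k, (2 * (‖c k - z (n + 1) k‖ ^ 2 / len k ^ 2)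
            + 2 * (‖c k - z n k‖ ^ 2 / len k ^ 2)) :=
            Summable.tsum_le_tsum hpt (Summable.of_nonneg_of_le (fun k => by positivity) hpt hs1) hs1
        _ = 2 * (∑' k, ‖c k - z (n + 1) k‖ ^ 2 / len k ^ 2)
            + 2 * ∑' k, ‖c k - z n k‖ ^ 2 / len k ^ 2 := by
            rw [((hsq _).mul_left _).tsum_add ((hsq _).mul_left _), tsum_mul_left, tsum_mul_left]
        _ ≤ 2 * (1 / 4) ^ (n + 1) + 2 * (1 / 4) ^ n := by
            have h8 := hz2 (n + 1)
            have h9 := hz2 n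
            linarith
        _ ≤ (2 * (1 / 2) ^ n) ^ 2 := by
            have e : ((1 : ℝ) / 4) ^ n = ((1 / 2) ^ n) ^ 2 := by
              rw [← pow_mul, mul_comm n 2, pow_mul]
              norm_num
            rw [pow_succ, e]
            nlinarith [sq_nonneg (((1 : ℝ) / 2) ^ n)]
    have h4 : al (z (n + 1) - z n) ≤ Ca * (2 * (1 / 2) ^ n) := by
      refine (al4 _ (l1_div l1)).trans (mul_le_mul_of_nonneg_left ?_ hCa.le)
      rw [← Real.sqrt_sq (show (0 : ℝ) ≤ 2 * (1 / 2) ^ n by positivity)]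
      exact Real.sqrt_le_sqrt h3
    linarith
  set K : ℝ := C₀ * (2 * Ca + 2) with hK
  have hK0 : 0 ≤ K := by positivity
  have hstep : ∀ n, ∫⁻ t in Ioc (0 : ℝ) 1, Sq2 (A (n + 2) t) (A (n + 1) t)
      ≤ ENNReal.ofReal K * ENNReal.ofReal ((1 / 2) ^ n) := by
    intro n
    refine ((hst (n + 1)).l2).trans ?_
    rw [← ENNReal.ofReal_mul hK0]
    refine ENNReal.ofReal_le_ofReal ?_
    have h1 := hal n
    have h2 : (0 : ℝ) ≤ (1 / 2) ^ n := by positivity
    rw [hK, mul_assoc]
    refine mul_le_mul_of_nonneg_left ?_ hC₀.le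
    rw [pow_succ]
    linarith
  set g : ℕ → ℝ → ℝ≥0∞ := fun i t =>
    l2n (fun k => ENNReal.ofReal ‖A (i + 2) t k - A (i + 1) t k‖) with hg
  have hgm : ∀ i, AEMeasurable (g i) (volume.restrict (Ioc (0 : ℝ) 1)) := fun i =>
    (AEMeasurable.tsum fun k => (Sq2_meas (hcn _) (hcn _) k).pow_const 2).pow_const _
  have hgq : ∀ i, Nq (volume.restrict (Ioc (0 : ℝ) 1)) 2 (g i)
      ≤ ENNReal.ofReal K ^ (1 / (2 : ℝ)) * ρ₂ ^ i := by
    intro i
    rw [Nq]
    have e1 : ∀ t, g i t ^ (2 : ℝ) = Sq2 (A (i + 2) t) (A (i + 1) t) := fun t => l2n_sq _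
    simp_rw [e1]
    refine (ENNReal.rpow_le_rpow (hstep i) (by norm_num)).trans (le_of_eq ?_)
    rw [ENNReal.mul_rpow_of_nonneg _ _ (by norm_num), ofReal_half_pow_rpow]
  set G₂ : ℝ → ℝ≥0∞ := fun t => ENNReal.ofReal (M 1) + ∑' i, g i t with hG₂
  have hG₂m : AEMeasurable G₂ (volume.restrict (Ioc (0 : ℝ) 1)) :=
    aemeasurable_const.add (AEMeasurable.tsum hgm)
  have hG₂fin : Nq (volume.restrict (Ioc (0 : ℝ) 1)) 2 G₂ < ⊤ := by
    calc Nq (volume.restrict (Ioc (0 : ℝ) 1)) 2 G₂
        ≤ Nq (volume.restrict (Ioc (0 : ℝ) 1)) 2 (fun _ => ENNReal.ofReal (M 1))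
          + ∑' i, Nq (volume.restrict (Ioc (0 : ℝ) 1)) 2 (g i) :=
          (Nq_add (by norm_num) aemeasurable_const (AEMeasurable.tsum hgm)).trans
            (add_le_add le_rfl (Nq_tsum (by norm_num) hgm))
      _ ≤ Nq (volume.restrict (Ioc (0 : ℝ) 1)) 2 (fun _ => ENNReal.ofReal (M 1))
          + ∑' i : ℕ, ENNReal.ofReal K ^ (1 / (2 : ℝ)) * ρ₂ ^ i :=
          add_le_add le_rfl (ENNReal.tsum_le_tsum hgq)
      _ < ⊤ := by
          refine ENNReal.add_lt_top.2 ⟨?_, (rho_sum hρ₂1 ?_).lt_top⟩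
          · rw [Nq, lintegral_const, Measure.restrict_apply_univ, Real.volume_Ioc]
            refine ENNReal.rpow_lt_top_of_nonneg (by norm_num) (ENNReal.mul_ne_top ?_
              ENNReal.ofReal_ne_top)
            exact ENNReal.rpow_ne_top_of_nonneg (by norm_num) ENNReal.ofReal_ne_top
          · exact ENNReal.rpow_ne_top_of_nonneg (by norm_num) ENNReal.ofReal_ne_top
  have hG₂sq : ∫⁻ s in Ioc (0 : ℝ) 1, G₂ s ^ (2 : ℝ) ≠ ⊤ := by
    rw [Nq] at hG₂fin
    exact ((ENNReal.rpow_lt_top_iff_of_pos (by norm_num)).1 hG₂fin).ne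
  have hM1 : ∀ t, 0 < t → ∑' k, ENNReal.ofReal ‖A 1 t k‖ ≤ ENNReal.ofReal (M 1) := by
    intro t ht
    refine ENNReal.summable.tsum_le_of_sum_le fun B => ?_
    rw [← ENNReal.ofReal_sum_of_nonneg fun k _ => norm_nonneg _]
    exact ENNReal.ofReal_le_ofReal (hMn 1 t ht.le B)
  have hEn : ∀ j t, 0 < t → En (A (j + 1) t) ≤ G₂ t ^ (2 : ℝ) := by
    intro j t ht
    have h1 : l2n (fun k => ENNReal.ofReal ‖A (j + 1) t k‖)
        ≤ ENNReal.ofReal (M 1) + ∑ i ∈ Finset.range j, g i t := by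
      induction j with
      | zero =>
        rw [Finset.range_zero, Finset.sum_empty, add_zero]
        exact (l2n_le_sum _).trans (hM1 t ht)
      | succ j ih =>
        rw [Finset.sum_range_succ, ← add_assoc]
        calc l2n (fun k => ENNReal.ofReal ‖A (j + 1 + 1) t k‖)
            ≤ l2n (fun k => ENNReal.ofReal ‖A (j + 1) t k‖
              + ENNReal.ofReal ‖A (j + 2) t k - A (j + 1) t k‖) := by
              refine l2n_mono fun k => ?_
              rw [← ENNReal.ofReal_add (norm_nonneg _) (norm_nonneg _)]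
              refine ENNReal.ofReal_le_ofReal ?_
              have e := norm_add_le (A (j + 1) t k) (A (j + 2) t k - A (j + 1) t k)
              rwa [add_sub_cancel] at e
          _ ≤ l2n (fun k => ENNReal.ofReal ‖A (j + 1) t k‖) + g j t := l2n_add _ _
          _ ≤ _ := add_le_add ih le_rfl
    have h2 : l2n (fun k => ENNReal.ofReal ‖A (j + 1) t k‖) ≤ G₂ t :=
      h1.trans (add_le_add le_rfl (ENNReal.sum_le_tsum _))
    calc En (A (j + 1) t) = l2n (fun k => ENNReal.ofReal ‖A (j + 1) t k‖) ^ (2 : ℝ) :=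
          (l2n_sq _).symm
      _ ≤ G₂ t ^ (2 : ℝ) := ENNReal.rpow_le_rpow h2 (by norm_num)
  -- the variation of the coefficients
  set Φ : ℝ → ℝ≥0∞ := fun t => ∫⁻ s in Ioc 0 t, (1 + G₂ s ^ (2 : ℝ)) ∂(volume.restrict (Ioc 0 1))
    with hΦ
  have htot : ∫⁻ s in Ioc (0 : ℝ) 1, (1 + G₂ s ^ (2 : ℝ)) ≠ ⊤ := by
    rw [lintegral_add_left measurable_const]
    refine ENNReal.add_ne_top.2 ⟨?_, hG₂sq⟩
    rw [lintegral_const, Measure.restrict_apply_univ, Real.volume_Ioc]
    exact ENNReal.mul_ne_top ENNReal.one_ne_top ENNReal.ofReal_ne_top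
  have hΦ0 : Tendsto Φ (𝓝[>] 0) (𝓝 0) := by
    refine tendsto_setLIntegral_zero htot ?_
    have h1 : Tendsto (fun t : ℝ => ENNReal.ofReal (t - 0)) (𝓝[>] 0) (𝓝 0) := by
      have h2 : Tendsto (fun t : ℝ => ENNReal.ofReal (t - 0)) (𝓝 0) (𝓝 (ENNReal.ofReal (0 - 0))) :=
        (ENNReal.continuous_ofReal.comp (continuous_id.sub continuous_const)).tendsto 0
      rw [sub_zero, ENNReal.ofReal_zero] at h2
      exact h2.mono_left nhdsWithin_le_nhds
    refine tendsto_of_tendsto_of_tendsto_of_le_of_le tendsto_const_nhds h1 (fun _ => zero_le) ?_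
    intro t
    show volume.restrict (Ioc (0 : ℝ) 1) (Ioc 0 t) ≤ _
    refine (Measure.restrict_apply_le _ _).trans ?_
    rw [Real.volume_Ioc]
  have hΦ1 : ∀ t, t ≤ 1 → Φ t = ∫⁻ s in Ioc 0 t, (1 + G₂ s ^ (2 : ℝ)) := by
    intro t ht
    rw [hΦ]
    simp only
    rw [Measure.restrict_restrict measurableSet_Ioc,
      inter_eq_left.2 (Ioc_subset_Ioc_right ht)]
  have hΦle : ∀ t, Φ t ≤ ∫⁻ s in Ioc (0 : ℝ) 1, (1 + G₂ s ^ (2 : ℝ)) := fun t =>
    setLIntegral_le_lintegral _ _
  have hAz : ∀ k, Tendsto (fun j => A (j + 1) 0 k) atTop (𝓝 (c k)) := by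
    intro k
    have hp : Tendsto (fun j : ℕ => ((1 : ℝ) / 2) ^ j) atTop (𝓝 0) :=
      tendsto_pow_atTop_nhds_zero_of_lt_one (by norm_num) (by norm_num)
    have h1 : Tendsto (fun j => z j k) atTop (𝓝 (c k)) := by
      rw [tendsto_iff_norm_sub_tendsto_zero]
      have h2 : ∀ j, ‖z j k - c k‖ ≤ len k * (1 / 2) ^ j := by
        intro j
        by_cases hk : k = 0
        · subst hk
          rw [hz0, hc0, sub_zero, norm_zero, len_zero, zero_mul]
        have hl := len_pos hk
        have h3 : ‖c k - z j k‖ ^ 2 / len k ^ 2 ≤ (1 / 4) ^ j := by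
          refine le_trans ?_ (hz2 j)
          refine Summable.le_tsum (f := fun k => ‖c k - z j k‖ ^ 2 / len k ^ 2) ?_ k
            fun _ _ => by positivity
          exact Summable.of_nonneg_of_le (fun k => by positivity) (fun k => by
            have h5 := hzc j k
            gcongr) hc.sm
        rw [div_le_iff₀ (by positivity)] at h3
        rw [norm_sub_rev]
        refine le_of_sq_le_sq' ?_ (by positivity)
        calc ‖c k - z j k‖ ^ 2 ≤ (1 / 4) ^ j * len k ^ 2 := h3
          _ = (len k * (1 / 2) ^ j) ^ 2 := by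
            rw [mul_pow, ← pow_mul (1 / 2 : ℝ), mul_comm j 2, pow_mul]
            norm_num
            ring
      refine squeeze_zero (fun _ => norm_nonneg _) h2 ?_
      have := hp.const_mul (len k)
      rwa [mul_zero] at this
    have h2 : Tendsto (fun j => A (j + 1) 0 k - z j k) atTop (𝓝 0) := by
      rw [tendsto_zero_iff_norm_tendsto_zero]
      have h3 : ∀ j, ‖A (j + 1) 0 k - z j k‖ ≤ 6 * Real.pi * len k * (1 / 2) ^ j := by
        intro j
        have h4 : L1 (A (j + 1) 0 - z j) := (hAl0 _).sub (hzl _)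
        have h5 : Dv (A (j + 1) 0 - z j) := by
          intro l
          have h6 := (hst j).csol.div 0 le_rfl l
          have h7 := hzd j l
          rw [Pi.sub_apply, sub_eq_add_neg, kd_add, h6, zero_add]
          rw [show -z j l = (-1 : ℂ) • z j l by rw [neg_one_smul], kd_smul, h7, mul_zero]
        have h6 : (A (j + 1) 0 - z j) 0 = 0 := by
          rw [Pi.sub_apply, (hst j).csol.zero 0 le_rfl, hz0, sub_zero]
        refine (coef_al (l1_div h4) h5 h6 k).trans ?_
        have h7 := len_nonneg k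
        have h8 := Real.pi_pos
        have h9 := (hst j).al0
        gcongr
      refine squeeze_zero (fun _ => norm_nonneg _) h3 ?_
      have := hp.const_mul (6 * Real.pi * len k)
      rwa [mul_zero] at this
    have h3 := h2.add h1
    rw [zero_add] at h3
    refine h3.congr fun j => ?_
    rw [sub_add_cancel]
  have key : ∀ t, 0 < t → t ≤ 1 → ∀ k,
      ENNReal.ofReal ‖b t k - c k‖ ≤ ENNReal.ofReal (kc ν k) * Φ t := by
    intro t ht ht1 k
    have h1 : Tendsto (fun j => ENNReal.ofReal ‖A (j + 1) t k - A (j + 1) 0 k‖) atTop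
        (𝓝 (ENNReal.ofReal ‖b t k - c k‖)) :=
      (ENNReal.continuous_ofReal.tendsto _).comp (((hlim t ht k).sub (hAz k)).norm)
    refine le_of_tendsto' h1 fun j => ?_
    refine (coef_le hν (htg (j + 1)).toLSol ht.le k).trans ?_
    refine mul_le_mul' le_rfl ?_
    rw [hΦ1 t ht1]
    refine setLIntegral_mono' measurableSet_Ioc fun s hs => ?_
    exact add_le_add le_rfl (hEn j s hs.1)
  refine ⟨b, hb, ?_, ?_, ?_, ?_, ?_, ?_, ?_⟩
  · -- the limits of the coefficients
    intro k
    rw [tendsto_iff_norm_sub_tendsto_zero]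
    have h1 : Tendsto (fun t => ENNReal.ofReal (kc ν k) * Φ t) (𝓝[>] 0) (𝓝 0) := by
      have := ENNReal.Tendsto.const_mul (a := ENNReal.ofReal (kc ν k)) hΦ0
        (Or.inr ENNReal.ofReal_ne_top)
      rwa [mul_zero] at this
    have h2 : Tendsto (fun t => ENNReal.ofReal ‖b t k - c k‖) (𝓝[>] 0) (𝓝 0) := by
      refine tendsto_of_tendsto_of_tendsto_of_le_of_le' tendsto_const_nhds h1
        (Eventually.of_forall fun _ => zero_le) ?_
      filter_upwards [self_mem_nhdsWithin, nhdsWithin_le_nhds (ge_mem_nhds one_pos)] with t ht ht1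
      exact key t ht ht1 k
    have h3 := (ENNReal.tendsto_toReal ENNReal.zero_ne_top).comp h2
    rw [ENNReal.toReal_zero] at h3
    refine h3.congr fun t => ?_
    exact ENNReal.toReal_ofReal (norm_nonneg _)
  · -- the bound of the coefficients
    set Ψ : ℝ := (∫⁻ s in Ioc (0 : ℝ) 1, (1 + G₂ s ^ (2 : ℝ))).toReal with hΨ
    have hΨ0 : 0 ≤ Ψ := ENNReal.toReal_nonneg
    set E : ℝ := Real.sqrt (∑' k, ‖c k‖ ^ 2 / len k ^ 2) with hE
    have hE0 : 0 ≤ E := Real.sqrt_nonneg _
    have hck : ∀ k, ‖c k‖ ≤ len k * E := by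
      intro k
      by_cases hk : k = 0
      · subst hk
        rw [hc0, norm_zero, len_zero, zero_mul]
      have hl := len_pos hk
      have h3 : ‖c k‖ ^ 2 / len k ^ 2 ≤ ∑' k, ‖c k‖ ^ 2 / len k ^ 2 :=
        hc.sm.le_tsum k fun _ _ => by positivity
      have h4 : ‖c k‖ / len k ≤ E := by
        refine Real.le_sqrt_of_sq_le ?_
        rwa [div_pow]
      rw [div_le_iff₀ hl] at h4
      linarith
    have hpi := Real.pi_pos
    refine ⟨E + (4 * Real.pi ^ 2 * ν + 24 * Real.pi) * Ψ, fun t ht ht1 k => ?_⟩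
    have h1 := (key t ht ht1 k).trans (mul_le_mul' le_rfl (hΦle t))
    have h2 : ‖b t k - c k‖ ≤ kc ν k * Ψ := by
      rw [← ENNReal.ofReal_toReal htot, ← hΨ, ← ENNReal.ofReal_mul (kc_nonneg hν k)] at h1
      exact (ENNReal.ofReal_le_ofReal_iff (mul_nonneg (kc_nonneg hν k) hΨ0)).1 h1
    have hl := len_nonneg k
    have h3 : kc ν k ≤ (4 * Real.pi ^ 2 * ν + 24 * Real.pi) * (1 + len k) ^ 2 := by
      have e : kc ν k = 4 * Real.pi ^ 2 * ν * len k ^ 2 + 24 * Real.pi * len k := by
        rw [kc, lam, len_sq]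
      rw [e, add_mul]
      have e1 : len k ^ 2 ≤ (1 + len k) ^ 2 := by gcongr; linarith
      have e2 : len k ≤ (1 + len k) ^ 2 := by nlinarith
      gcongr
    have h4 : ‖b t k‖ ≤ ‖c k‖ + ‖b t k - c k‖ := by
      have := norm_add_le (c k) (b t k - c k)
      rwa [add_sub_cancel] at this
    have h5 : len k * E ≤ E * (1 + len k) ^ 2 := by
      have e2 : len k ≤ (1 + len k) ^ 2 := by nlinarith
      rw [mul_comm]
      gcongr
    calc ‖b t k‖ ≤ ‖c k‖ + ‖b t k - c k‖ := h4
      _ ≤ E * (1 + len k) ^ 2 + (4 * Real.pi ^ 2 * ν + 24 * Real.pi) * (1 + len k) ^ 2 * Ψ := by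
          refine add_le_add ((hck k).trans h5) (h2.trans ?_)
          gcongr
      _ = _ := by ring
  · -- the Besov norms
    intro hs q hq
    have hzε : ∀ n, ∑' k, ‖c k - z n k‖ ≤ (1 / 2) ^ n := hz1 hs
    have hzs : ∀ n, Summable fun k => ‖c k - z n k‖ := fun n =>
      Summable.of_nonneg_of_le (fun _ => norm_nonneg _) (hzc n) hs
    have hq1 : 1 ≤ q := by linarith
    have hq0 : 0 < q := by linarith
    set ρ : ℝ≥0∞ := ENNReal.ofReal (1 / 2) ^ (1 / q) with hρ
    have hρ1 : ρ < 1 := rho_lt hq0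
    obtain ⟨n₀, hn₀⟩ : ∃ n₀ : ℕ, ∀ n, n₀ ≤ n → 1 / ((n : ℝ) + 1) ≤ q - 2 := by
      obtain ⟨n₀, hn₀⟩ := exists_nat_one_div_lt (show 0 < q - 2 by linarith)
      refine ⟨n₀, fun n hn => le_trans ?_ hn₀.le⟩
      exact one_div_le_one_div_of_le (by positivity) (by
        have : (n₀ : ℝ) ≤ n := by exact_mod_cast hn
        linarith)
    have hE : ∀ n, n₀ ≤ n → ENNReal.ofReal (ε n ^ (q - 2) * Hn n) ^ (1 / q) ≤ ρ ^ n := by
      intro n hn
      rw [hρ, ← ofReal_half_pow_rpow]
      exact ENNReal.rpow_le_rpow (ENNReal.ofReal_le_ofReal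
        (pow_Hn hε0 hε1 hHn hM (hn₀ n hn))) (by positivity)
    have hg : ∀ n, ENNReal.ofReal ((1 / 2) ^ n) ≤ ρ ^ n := fun n => ofReal_half_pow_le hq1 n
    have hcz : ∀ n, bN q (fun k => ENNReal.ofReal ‖c k - z n k‖) ≤ ρ ^ n := fun n =>
      (bN_le hq (by rw [hc0, hz0]) (hzs n) (hzε n)).trans (hg n)
    have hw : ∀ n, n₀ ≤ n → bN q (fun k => ENNReal.ofReal ‖A (n + 1) 0 k - z n k‖)
        ≤ 2 * ρ ^ n := fun n hn => by
      rw [two_mul]
      exact ((hst n).one q hq).trans (add_le_add (hE n hn) (hg n))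
    have hAc : ∀ n, n₀ ≤ n → bN q (fun k => ENNReal.ofReal ‖A (n + 1) 0 k - c k‖)
        ≤ 3 * ρ ^ n := by
      intro n hn
      refine (bN_tri hq1 _ (z n) _).trans ?_
      rw [bN_comm q (z n) c]
      calc _ ≤ 2 * ρ ^ n + ρ ^ n := add_le_add (hw n hn) (hcz n)
        _ = 3 * ρ ^ n := by ring
    have hzA : ∀ n, n₀ ≤ n → bN q (fun k => ENNReal.ofReal ‖z (n + 1) k - A (n + 1) 0 k‖)
        ≤ 4 * ρ ^ n := by
      intro n hn
      refine (bN_tri hq1 _ c _).trans ?_
      rw [bN_comm q (z (n + 1)) c, bN_comm q c (A (n + 1) 0)]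
      calc _ ≤ ρ ^ n + 3 * ρ ^ n := by
            refine add_le_add ((hcz (n + 1)).trans ?_) (hAc n hn)
            exact pow_le_pow_right_of_le_one' hρ1.le (Nat.le_succ n)
        _ = 4 * ρ ^ n := by ring
    have hD : ∀ n, n₀ ≤ n → ∀ t, 0 ≤ t →
        bN q (fun k => ENNReal.ofReal ‖A (n + 1 + 1) t k - A (n + 1) t k‖)
          ≤ 6 * ρ ^ n := by
      intro n hn t ht
      have h3 : ρ ^ (n + 1) ≤ ρ ^ n := pow_le_pow_right_of_le_one' hρ1.le (Nat.le_succ n)
      calc _ ≤ _ := (hst (n + 1)).two q hq t ht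
        _ ≤ 4 * ρ ^ n + ρ ^ n + ρ ^ n := by
            refine add_le_add (add_le_add (hzA n hn) ?_) ?_
            · exact (hE (n + 1) (by omega)).trans h3
            · exact (hg (n + 1)).trans h3
        _ = _ := by ring
    have ht1 : Tendsto (fun J : ℕ => ∑' i, 6 * ρ ^ (i + J)) atTop
        (𝓝 0) := ENNReal.tendsto_sum_nat_add _ (rho_sum hρ1 (by simp))
    have ht2 : Tendsto (fun J : ℕ => 3 * ρ ^ J) atTop (𝓝 0) := by
      have := ENNReal.Tendsto.const_mul (a := 3)
        (ENNReal.tendsto_pow_atTop_nhds_zero_of_lt_one hρ1) (Or.inr (by simp))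
      rwa [mul_zero] at this
    have hbes : Tendsto (fun t => bN q (fun k => ENNReal.ofReal ‖b t k - c k‖)) (𝓝[>] 0)
        (𝓝 0) := by
      rw [ENNReal.tendsto_nhds_zero]
      intro η hη
      have hη3 : 0 < η / 3 := ENNReal.div_pos hη.ne' (by simp)
      obtain ⟨J, hJ1, hJ2, hJ0⟩ := (((ENNReal.tendsto_nhds_zero.1 ht1) (η / 3) hη3).and
        (((ENNReal.tendsto_nhds_zero.1 ht2) (η / 3) hη3).and (eventually_ge_atTop n₀))).exists
      -- continuity at zero of the solution number `J + 1`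
      have hcon : ∀ᶠ t in 𝓝[>] (0 : ℝ),
          bN q (fun k => ENNReal.ofReal ‖A (J + 1) t k - A (J + 1) 0 k‖) ≤ η / 3 := by
        have hm : Maj (fun t => A (J + 1) t - A (J + 1) 0) := by
          refine Maj.sub (htg (J + 1)).maj ?_
          intro n T
          obtain ⟨B, hB, h⟩ := (htg (J + 1)).maj n 0
          exact ⟨B, hB, fun t _ k => h 0 ⟨le_rfl, le_rfl⟩ k⟩
        have hcn' : Cnt (fun t => A (J + 1) t - A (J + 1) 0) :=
          Cnt.sub (hcn (J + 1)) fun k => continuousOn_const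
        have h1 := (hm.cont hcn' wt_one) 0 (by simp)
        have h2 : Tendsto (fun t => ENNReal.ofReal (W (fun _ => 1)
            (A (J + 1) t - A (J + 1) 0))) (𝓝[>] 0) (𝓝 0) := by
          have h3 : W (fun _ => 1) (A (J + 1) 0 - A (J + 1) 0) = 0 := by
            rw [W]
            simp
          have h4 : Tendsto (fun t => W (fun _ => 1) (A (J + 1) t - A (J + 1) 0)) (𝓝[>] 0)
              (𝓝 0) := by
            have h5 := (ContinuousWithinAt.mono h1 (Ioi_subset_Ici_self)).tendsto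
            rwa [h3] at h5
          have := (ENNReal.continuous_ofReal.tendsto 0).comp h4
          rwa [ENNReal.ofReal_zero] at this
        filter_upwards [(ENNReal.tendsto_nhds_zero.1 h2) (η / 3) hη3, self_mem_nhdsWithin]
          with t ht ht0
        have ht0' : (0 : ℝ) ≤ t := (show (0 : ℝ) < t from ht0).le
        refine le_trans (bN_le hq ?_ ?_ ?_) ht
        · rw [(htg (J + 1)).zero t ht0', (htg (J + 1)).zero 0 le_rfl]
        · have := hm.l1 ht0'
          exact this
        · refine le_of_eq ?_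
          rw [W]
          exact tsum_congr fun k => by rw [one_mul, Pi.sub_apply]
      filter_upwards [hcon, self_mem_nhdsWithin] with t ht ht0
      have ht0' : 0 < t := ht0
      refine (bN_split hq1 c (hlim t ht0') (J + 1)).trans ?_
      calc _ ≤ η / 3 + (η / 3 + η / 3) := by
            refine add_le_add (le_trans (ENNReal.tsum_le_tsum fun i => ?_) hJ1)
              (add_le_add ht ((hAc J hJ0).trans hJ2))
            have h6 := hD (i + J) (by omega) t ht0'.le
            have h7 : J + 1 + i = i + J + 1 := by omega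
            rw [h7]
            exact h6
        _ = η := by
            rw [← add_assoc]
            exact ENNReal.add_thirds η
    have := (ENNReal.continuous_rpow_const (y := q)).tendsto 0 |>.comp hbes
    rw [ENNReal.zero_rpow_of_pos hq0] at this
    refine this.congr fun t => ?_
    exact (besC_eq hq0 _).symm
  · -- the pointwise decay
    have e0 : ∀ t, Real.sqrt t * ∑' k, ‖b t k‖
        = (ENNReal.ofReal (Real.sqrt t) * ∑' k, ENNReal.ofReal ‖b t k‖).toReal := by
      intro t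
      rw [ENNReal.toReal_mul, ENNReal.toReal_ofReal (Real.sqrt_nonneg _),
        ENNReal.tsum_toReal_eq fun k => ENNReal.ofReal_ne_top]
      congr 1
      exact tsum_congr fun k => (ENNReal.toReal_ofReal (norm_nonneg _)).symm
    simp_rw [e0]
    rw [← ENNReal.toReal_zero]
    refine (ENNReal.tendsto_toReal ENNReal.zero_ne_top).comp ?_
    rw [ENNReal.tendsto_nhds_zero]
    intro η hη
    have hη2 : 0 < η / 2 := ENNReal.div_pos hη.ne' (by simp)
    have hεs : ∑' n : ℕ, ENNReal.ofReal (ε n) ≠ ⊤ := by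
      rw [← ENNReal.ofReal_tsum_of_nonneg (fun n => (hε0 n).le)
        (Summable.of_nonneg_of_le (fun n => (hε0 n).le) hε1
          (summable_geometric_of_lt_one (by norm_num) (by norm_num)))]
      exact ENNReal.ofReal_ne_top
    obtain ⟨J, hJ⟩ := ((ENNReal.tendsto_nhds_zero.1 (ENNReal.tendsto_sum_nat_add _ hεs))
      (η / 2) hη2).exists
    have h1 : Tendsto (fun t : ℝ => ENNReal.ofReal (Real.sqrt t) * ENNReal.ofReal (M J))
        (𝓝[>] 0) (𝓝 0) := by
      have h2 : Tendsto (fun t : ℝ => ENNReal.ofReal (Real.sqrt t)) (𝓝 0)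
          (𝓝 (ENNReal.ofReal (Real.sqrt 0))) :=
        (ENNReal.continuous_ofReal.comp Real.continuous_sqrt).tendsto 0
      rw [Real.sqrt_zero, ENNReal.ofReal_zero] at h2
      have h3 := ENNReal.Tendsto.mul_const (b := ENNReal.ofReal (M J)) h2
        (Or.inr ENNReal.ofReal_ne_top)
      rw [zero_mul] at h3
      exact h3.mono_left nhdsWithin_le_nhds
    filter_upwards [(ENNReal.tendsto_nhds_zero.1 h1) (η / 2) hη2, self_mem_nhdsWithin]
      with t ht ht0
    have ht0' : 0 < t := ht0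
    have hst' : 0 < Real.sqrt t := Real.sqrt_pos.2 ht0'
    calc ENNReal.ofReal (Real.sqrt t) * ∑' k, ENNReal.ofReal ‖b t k‖
        ≤ ENNReal.ofReal (Real.sqrt t)
          * (ENNReal.ofReal (M J) + ∑' i, Sd (A (J + i + 1) t) (A (J + i) t)) :=
          mul_le_mul' le_rfl (hsumb J t ht0')
      _ = ENNReal.ofReal (Real.sqrt t) * ENNReal.ofReal (M J)
          + ∑' i, ENNReal.ofReal (Real.sqrt t) * Sd (A (J + i + 1) t) (A (J + i) t) := by
          rw [mul_add, ENNReal.tsum_mul_left]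
      _ ≤ η / 2 + ∑' i, ENNReal.ofReal (ε (i + J)) := by
          refine add_le_add ht (ENNReal.tsum_le_tsum fun i => ?_)
          calc ENNReal.ofReal (Real.sqrt t) * Sd (A (J + i + 1) t) (A (J + i) t)
              ≤ ENNReal.ofReal (Real.sqrt t) * ENNReal.ofReal (ε (J + i) / Real.sqrt t) :=
                mul_le_mul' le_rfl ((hst (J + i)).pt t ht0')
            _ = ENNReal.ofReal (ε (i + J)) := by
                rw [← ENNReal.ofReal_mul hst'.le, mul_div_cancel₀ _ hst'.ne', add_comm]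
      _ ≤ η / 2 + η / 2 := add_le_add le_rfl hJ
      _ = η := ENNReal.add_halves η
  · -- the norms in `L^q (dt / t)`
    intro q hq
    have hq1 : 1 ≤ q := by linarith
    have hq0 : 0 < q := by linarith
    set ρ : ℝ≥0∞ := ENNReal.ofReal (1 / 2) ^ (1 / q) with hρ
    have hρ1 : ρ < 1 := rho_lt hq0
    obtain ⟨J, hJ⟩ : ∃ n₀ : ℕ, ∀ n, n₀ ≤ n → 1 / ((n : ℝ) + 1) ≤ q - 2 := by
      obtain ⟨n₀, hn₀⟩ := exists_nat_one_div_lt (show 0 < q - 2 by linarith)
      refine ⟨n₀, fun n hn => le_trans ?_ hn₀.le⟩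
      exact one_div_le_one_div_of_le (by positivity) (by
        have : (n₀ : ℝ) ≤ n := by exact_mod_cast hn
        linarith)
    set G : ℝ → ℝ≥0∞ := fun t => ENNReal.ofReal (Real.sqrt t) * ∑' k, ENNReal.ofReal ‖b t k‖
      with hG
    have hGm : AEMeasurable G (volume.restrict (Ioc (0 : ℝ) 1)) :=
      hsm.aemeasurable.mul (AEMeasurable.tsum hbm)
    have hfm : ∀ i, AEMeasurable (fun t => ENNReal.ofReal (Real.sqrt t)
        * Sd (A (J + i + 1) t) (A (J + i) t)) (volume.restrict (Ioc (0 : ℝ) 1)) := fun i =>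
      hsm.aemeasurable.mul (hSm (J + i))
    have hfin : Nq mu1 q G < ⊤ := by
      calc Nq mu1 q G ≤ Nq mu1 q (fun t => ENNReal.ofReal (Real.sqrt t) * ENNReal.ofReal (M J)
            + ∑' i, ENNReal.ofReal (Real.sqrt t) * Sd (A (J + i + 1) t) (A (J + i) t)) := by
            refine Nq_mono hq0.le (mu1_ae fun t ht => ?_)
            rw [ENNReal.tsum_mul_left, ← mul_add]
            exact mul_le_mul' le_rfl (hsumb J t ht.1)
        _ ≤ Nq mu1 q (fun t => ENNReal.ofReal (Real.sqrt t) * ENNReal.ofReal (M J))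
            + ∑' i, Nq mu1 q (fun t => ENNReal.ofReal (Real.sqrt t)
              * Sd (A (J + i + 1) t) (A (J + i) t)) :=
            (Nq_add hq1 (hsm.mul measurable_const).aemeasurable
              (AEMeasurable.tsum fun i => aem_mu1 (hfm i))).trans
              (add_le_add le_rfl (Nq_tsum hq1 fun i => aem_mu1 (hfm i)))
        _ ≤ Nq mu1 q (fun t => ENNReal.ofReal (Real.sqrt t) * ENNReal.ofReal (M J))
            + ∑' i : ℕ, 1 * ρ ^ i := by
            refine add_le_add le_rfl (ENNReal.tsum_le_tsum fun i => ?_)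
            refine (step_mu1 (hSm (J + i)) (hε0 _) hq (hst (J + i)).pt (hst (J + i)).int).trans ?_
            rw [one_mul, hρ]
            refine (ENNReal.rpow_le_rpow (ENNReal.ofReal_le_ofReal
              (pow_Hn hε0 hε1 hHn hM (hJ (J + i) (by omega)))) (by positivity)).trans ?_
            rw [ofReal_half_pow_rpow]
            exact pow_le_pow_right_of_le_one' hρ1.le (by omega)
        _ < ⊤ := ENNReal.add_lt_top.2 ⟨mu1_const hq (hM0 J),
            (rho_sum hρ1 ENNReal.one_ne_top).lt_top⟩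
    rw [Nq] at hfin
    have hfin2 := (ENNReal.rpow_lt_top_iff_of_pos (by positivity)).1 hfin
    rw [lintegral_mu1 (hGm.pow_const q)] at hfin2
    have e0 : ∀ t, Real.sqrt t * ∑' k, ‖b t k‖ = (G t).toReal := by
      intro t
      rw [hG]
      simp only
      rw [ENNReal.toReal_mul, ENNReal.toReal_ofReal (Real.sqrt_nonneg _),
        ENNReal.tsum_toReal_eq fun k => ENNReal.ofReal_ne_top]
      congr 1
      exact tsum_congr fun k => (ENNReal.toReal_ofReal (norm_nonneg _)).symm
    simp_rw [e0]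
    refine ⟨((hGm.ennreal_toReal.pow_const q).div measurable_id.aemeasurable).aestronglyMeasurable,
      ?_⟩
    rw [HasFiniteIntegral]
    refine lt_of_le_of_lt ?_ hfin2
    refine setLIntegral_mono' measurableSet_Ioc fun t ht => ?_
    have ht0 : 0 < t := ht.1
    rw [Real.enorm_eq_ofReal (div_nonneg (Real.rpow_nonneg ENNReal.toReal_nonneg _) ht0.le),
      ENNReal.ofReal_div_of_pos ht0]
    refine ENNReal.div_le_div_right ?_ _
    by_cases htt : G t = ⊤
    · rw [htt, ENNReal.top_rpow_of_pos hq0]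
      exact le_top
    · rw [← ENNReal.ofReal_rpow_of_nonneg ENNReal.toReal_nonneg hq0.le, ENNReal.ofReal_toReal htt]
  · -- the norm in `L²`
    set N : ℝ → ℝ≥0∞ := fun t => l2n (fun k => ENNReal.ofReal ‖b t k‖) with hN
    have hNle : ∀ t, 0 < t → N t ≤ G₂ t := by
      intro t ht
      calc N t ≤ l2n (fun k => ENNReal.ofReal ‖A 1 t k‖
            + ∑' i, ENNReal.ofReal ‖A (i + 2) t k - A (i + 1) t k‖) := by
            refine l2n_mono fun k => ?_
            have h2 := tri (b t k) (A 1 t k) 0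
            rw [sub_zero, sub_zero, add_comm] at h2
            refine h2.trans (add_le_add le_rfl ?_)
            refine (tel (hlim t ht) 1 k).trans (le_of_eq ?_)
            refine tsum_congr fun i => ?_
            rw [show 1 + i + 1 = i + 2 by omega, show 1 + i = i + 1 by omega]
        _ ≤ l2n (fun k => ENNReal.ofReal ‖A 1 t k‖)
            + l2n (fun k => ∑' i, ENNReal.ofReal ‖A (i + 2) t k - A (i + 1) t k‖) :=
            l2n_add _ _
        _ ≤ ENNReal.ofReal (M 1) + ∑' i, g i t :=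
            add_le_add ((l2n_le_sum _).trans (hM1 t ht)) (l2n_tsum _)
    have hNm : AEMeasurable (fun t => ∑' k, ENNReal.ofReal ‖b t k‖ ^ (2 : ℝ))
        (volume.restrict (Ioc (0 : ℝ) 1)) := AEMeasurable.tsum fun k => (hbm k).pow_const 2
    have hfin : Nq (volume.restrict (Ioc (0 : ℝ) 1)) 2 N < ⊤ := by
      refine lt_of_le_of_lt (Nq_mono (by norm_num) ?_) hG₂fin
      filter_upwards [self_mem_ae_restrict measurableSet_Ioc] with t ht
      exact hNle t ht.1
    rw [Nq] at hfin
    have hfin2 := (ENNReal.rpow_lt_top_iff_of_pos (by norm_num)).1 hfin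
    have e1 : ∀ t, N t ^ (2 : ℝ) = ∑' k, ENNReal.ofReal ‖b t k‖ ^ (2 : ℝ) := fun t => l2n_sq _
    simp_rw [e1] at hfin2
    have e2 : ∀ x : ℝ, 0 ≤ x → ENNReal.ofReal x ^ (2 : ℝ) = ENNReal.ofReal (x ^ 2) := by
      intro x hx
      rw [ENNReal.ofReal_rpow_of_nonneg hx (by norm_num), Real.rpow_two]
    have e0 : ∀ t, ∑' k, ‖b t k‖ ^ 2 = (∑' k, ENNReal.ofReal ‖b t k‖ ^ (2 : ℝ)).toReal := by
      intro t
      rw [ENNReal.tsum_toReal_eq fun k => ENNReal.rpow_ne_top_of_nonneg (by norm_num)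
        ENNReal.ofReal_ne_top]
      refine tsum_congr fun k => ?_
      rw [e2 _ (norm_nonneg _), ENNReal.toReal_ofReal (sq_nonneg _)]
    simp_rw [e0]
    exact integrable_toReal_of_lintegral_ne_top hNm hfin2.ne
  · -- closeness
    intro t ht B
    have hnn : ∀ n, ∑ k ∈ B, ‖A n t k - U t k‖ ≤ ∑ i ∈ Finset.range n, ε i := by
      intro n
      induction n with
      | zero => simp [hA0]
      | succ n ih =>
        rw [Finset.sum_range_succ]
        have h1 : ε n ≤ t := by
          refine (hε2 n).trans (le_trans ?_ ht)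
          exact mul_le_of_le_one_right hδ.le (pow_le_one₀ (by norm_num) (by norm_num))
        calc ∑ k ∈ B, ‖A (n + 1) t k - U t k‖
            ≤ ∑ k ∈ B, (‖A (n + 1) t k - A n t k‖ + ‖A n t k - U t k‖) :=
              Finset.sum_le_sum fun k _ => norm_sub_le_norm_sub_add_norm_sub _ _ _
          _ = ∑ k ∈ B, ‖A (n + 1) t k - A n t k‖ + ∑ k ∈ B, ‖A n t k - U t k‖ :=
              Finset.sum_add_distrib
          _ ≤ _ := by linarith [(hst n).close t h1 B]
    have hεs : ∀ n, ∑ i ∈ Finset.range n, ε i ≤ δ := by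
      intro n
      calc ∑ i ∈ Finset.range n, ε i ≤ ∑ i ∈ Finset.range n, δ * (1 / 2) ^ (i + 1) :=
            Finset.sum_le_sum fun i _ => hε2 i
        _ = δ * (1 - (1 / 2) ^ n) := by
            rw [← Finset.mul_sum]
            congr 1
            induction n with
            | zero => simp
            | succ n ih =>
              rw [Finset.sum_range_succ, ih]
              ring
        _ ≤ δ := by
            have : (0 : ℝ) ≤ (1 / 2) ^ n := by positivity
            nlinarith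
    have hlim' : Tendsto (fun n => ∑ k ∈ B, ‖A (n + 1) t k - U t k‖) atTop
        (𝓝 (∑ k ∈ B, ‖b t k - U t k‖)) :=
      tendsto_finsetSum _ fun k _ =>
        ((hlim t (hδ.trans_le ht) k).sub tendsto_const_nhds).norm
    exact le_of_tendsto' hlim' fun n => (hnn (n + 1)).trans (hεs (n + 1))

end Pool.Agent.Run7.h744.WS
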