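import Pool.Agent.Run7.h782.WS.Defs

/-!
Weak solutions which are smooth for positive times, for ROUGH data (of class `H⁻¹`, in particular
of finite energy): definitions and statements of the pieces.

In `StmStepW` nothing depends on the size of `z` except the bound `al (z - U 0)` of the square mean
of the waves, so the iteration works for every datum which is a limit of trigonometric polynomials
`z j` with `∑ j, √(al (z (j+1) - z j)) < ∞`.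
-/

set_option autoImplicit false

open MeasureTheory Set Filter Topology
open scoped ContDiff ENNReal ComplexConjugate

namespace Pool.Agent.Run7.h744.WS

open H459R3.NS Pool.Agent.Run7.h782 Pool.Agent.Run7.h782.GD Pool.Agent.Run7.h782.GS
open Pool.Agent.Run7.h782.WS

/-- The coefficients of a real divergence free distribution of class `H⁻¹` on the torus. -/
structure Dat (c : Cf) : Prop where
  herm : Herm c
  dv : Dv c
  sm : Summable fun k => ‖c k‖ ^ 2 / len k ^ 2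

/-- The value of the distribution with the coefficients `c k i` at the test function `φ`. -/
noncomputable def pr (c : Cf) (i : Fin 3) (φ : V → ℝ) : ℝ := (∑' k, c k i * conj (fr φ k)).re

/-- **R1.** The norm of the antidivergence by the norm in `H⁻¹`. -/
def StmAl2 : Prop := ∃ C : ℝ, 0 < C ∧ ∀ c : Cf, (Summable fun k => ‖c k‖ / len k) →
  al c ≤ C * Real.sqrt (∑' k, ‖c k‖ ^ 2 / len k ^ 2)

/-- **R2** (the iteration, from `StmStepW`, `StmLim`, `StmAl`, `StmAl2`; as `StmIterW`). -/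
def StmIterH : Prop := ∀ (ν : ℝ), 0 < ν → ∀ U : ℝ → Cf, Tg ν U → ∀ c : Cf, c 0 = 0 → Dat c →
  ∀ δ : ℝ, 0 < δ →
  ∃ b : ℝ → Cf, (∀ τ : ℝ, 0 < τ → CSol ν (fun t => b (t + τ))) ∧
    (∀ k, Tendsto (fun t => b t k) (𝓝[>] 0) (𝓝 (c k))) ∧
    (∃ C : ℝ, ∀ t, 0 < t → t ≤ 1 → ∀ k, ‖b t k‖ ≤ C * (1 + len k) ^ 2) ∧
    ((Summable fun k => ‖c k‖) →
      ∀ q : ℝ, 2 < q → Tendsto (fun t => besC q (fun k => ‖b t k - c k‖)) (𝓝[>] 0) (𝓝 0)) ∧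
    Tendsto (fun t => Real.sqrt t * ∑' k, ‖b t k‖) (𝓝[>] 0) (𝓝 0) ∧
    (∀ q : ℝ, 2 < q → IntegrableOn (fun t => (Real.sqrt t * ∑' k, ‖b t k‖) ^ q / t) (Ioc 0 1)) ∧
    IntegrableOn (fun t => ∑' k, ‖b t k‖ ^ 2) (Ioc 0 1) ∧
    ∀ t, δ ≤ t → ∀ A : Finset K3, ∑ k ∈ A, ‖b t k - U t k‖ ≤ δ

/-- **R3a** (from `StmIterH`, `StmTg`, `StmPhys2`; as helper811's `initW`). -/
def StmInitH : Prop := ∀ (ν : ℝ), 0 < ν → ∀ c : Cf, Dat c → ∀ (U : ℝ → V → V) (P : ℝ → V → ℝ),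
  (∀ T, IsSol ν T U P) → (∀ i, ((∫ x in cube, U 0 x i : ℝ) : ℂ) = c 0 i) →
  ∀ δ : ℝ, 0 < δ →
  ∃ (u : ℝ → V → V) (p : ℝ → V → ℝ), OSol ν u p ∧
    (∀ (T : ℝ) (i : Fin 3),
      IntegrableOn (fun z : ℝ × V => u z.1 z.2 i ^ 2) (Ioc 0 T ×ˢ cube)) ∧
    (∀ k, Tendsto (fun t => vf (u t) k) (𝓝[>] 0) (𝓝 (c k))) ∧
    (∃ C : ℝ, ∀ t, 0 < t → t ≤ 1 → ∀ k, ‖vf (u t) k‖ ≤ C * (1 + len k) ^ 2) ∧
    (∃ h : ℝ → ℝ, (∀ t, 0 < t → ∀ x i, |u t x i| ≤ h t) ∧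
      Tendsto (fun t => Real.sqrt t * h t) (𝓝[>] 0) (𝓝 0) ∧
      ∀ q : ℝ, 2 < q → IntegrableOn (fun t => (Real.sqrt t * h t) ^ q / t) (Ioc 0 1)) ∧
    ((Summable fun k => ‖c k‖) → ∀ q : ℝ, 2 < q → ∀ i,
      Tendsto (fun t => bes q (fun x => u t x i - (S (fun k => c k i) x).re)) (𝓝[>] 0) (𝓝 0)) ∧
    ∀ t, δ ≤ t → ∀ x i, |u t x i - U t x i| ≤ δ

/-- **R3b.** Convergence of the coefficients with a polynomial bound gives convergence of the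
pairings (dominated convergence, `fr φ` decays rapidly). -/
def StmPairH : Prop := ∀ (f : ℝ → V → ℝ) (γ : K3 → ℂ), (∀ t, 0 < t → ContDiff ℝ ∞ (f t)) →
  (∀ t, 0 < t → Per (f t)) → (∀ k, Tendsto (fun t => fr (f t) k) (𝓝[>] 0) (𝓝 (γ k))) →
  (∃ C : ℝ, ∀ t, 0 < t → t ≤ 1 → ∀ k, ‖fr (f t) k‖ ≤ C * (1 + len k) ^ 2) →
  ∀ φ : V → ℝ, ContDiff ℝ ∞ φ → Per φ →
  Tendsto (fun t => ∫ x in cube, f t x * φ x) (𝓝[>] 0) (𝓝 (∑' k, γ k * conj (fr φ k)).re)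

/-- **R3c.** The weak formulation, from the limit of the pairing. -/
def StmWkH : Prop := ∀ (ν : ℝ) (u : ℝ → V → V) (p : ℝ → V → ℝ), OSol ν u p →
  (∀ (T : ℝ) (i : Fin 3),
    IntegrableOn (fun z : ℝ × V => u z.1 z.2 i ^ 2) (Ioc 0 T ×ˢ cube)) →
  ∀ φ : V → V, ContDiff ℝ ∞ φ → Per φ → (∀ x, ∑ i, pd i (fun y => φ y i) x = 0) →
  ∀ l : ℝ, Tendsto (fun t => ∑ i, ∫ x in cube, u t x i * φ x i) (𝓝[>] 0) (𝓝 l) →
  ∀ t, 0 < t → ∫ x in cube, ∑ i, u t x i * φ x i = l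
    + ∫ z in Ioc 0 t ×ˢ cube, (∑ i, ∑ j, u z.1 z.2 i * u z.1 z.2 j * pd i (fun y => φ y j) z.2
      + ν * ∑ i, u z.1 z.2 i * ∑ j, pd j (pd j (fun y => φ y i)) z.2)

/-- **The theorem.** Every divergence free datum of class `H⁻¹` and every global smooth solution `U`
with the same mean. -/
def StmRough : Prop := ∀ (ν : ℝ), 0 < ν → ∀ c : Cf, Dat c → ∀ (U : ℝ → V → V) (P : ℝ → V → ℝ),
  (∀ T, IsSol ν T U P) → (∀ i, ((∫ x in cube, U 0 x i : ℝ) : ℂ) = c 0 i) →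
  ∀ δ : ℝ, 0 < δ →
  ∃ (u : ℝ → V → V) (p : ℝ → V → ℝ), OSol ν u p ∧
    (∀ (T : ℝ) (i : Fin 3),
      IntegrableOn (fun z : ℝ × V => u z.1 z.2 i ^ 2) (Ioc 0 T ×ˢ cube)) ∧
    (∀ (i : Fin 3) (φ : V → ℝ), ContDiff ℝ ∞ φ → Per φ →
      Tendsto (fun t => ∫ x in cube, u t x i * φ x) (𝓝[>] 0) (𝓝 (pr c i φ))) ∧
    (∀ φ : V → V, ContDiff ℝ ∞ φ → Per φ → (∀ x, ∑ i, pd i (fun y => φ y i) x = 0) →
      ∀ t, 0 < t → ∫ x in cube, ∑ i, u t x i * φ x i = (∑ i, pr c i (fun x => φ x i))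
        + ∫ z in Ioc 0 t ×ˢ cube,
          (∑ i, ∑ j, u z.1 z.2 i * u z.1 z.2 j * pd i (fun y => φ y j) z.2
            + ν * ∑ i, u z.1 z.2 i * ∑ j, pd j (pd j (fun y => φ y i)) z.2)) ∧
    (∃ h : ℝ → ℝ, (∀ t, 0 < t → ∀ x i, |u t x i| ≤ h t) ∧
      Tendsto (fun t => Real.sqrt t * h t) (𝓝[>] 0) (𝓝 0) ∧
      ∀ q : ℝ, 2 < q → IntegrableOn (fun t => (Real.sqrt t * h t) ^ q / t) (Ioc 0 1)) ∧
    ((Summable fun k => ‖c k‖) → ∀ q : ℝ, 2 < q → ∀ i,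
      Tendsto (fun t => bes q (fun x => u t x i - (S (fun k => c k i) x).re)) (𝓝[>] 0) (𝓝 0)) ∧
    ∀ t, δ ≤ t → ∀ x i, |u t x i - U t x i| ≤ δ

theorem slice_smooth {ν : ℝ} {u : ℝ → V → V} {p : ℝ → V → ℝ} (hO : OSol ν u p) {t : ℝ}
    (ht : 0 < t) : ContDiff ℝ ∞ (u t) := by
  have h := hO.smooth_u.comp (f := fun x : V => ((t, x) : ℝ × V)) (s := univ)
    (contDiff_const.prodMk contDiff_id).contDiffOn
    (fun x _ => ⟨ht, mem_univ _⟩)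
  exact contDiffOn_univ.1 h

/-- R3a, R3b, R3c give the theorem. -/
theorem rough (h1 : StmInitH) (h2 : StmPairH) (h3 : StmWkH) : StmRough := by
  intro ν hν c hc U P hU hm δ hδ
  obtain ⟨u, p, hO, hL, hk, hb, hh, hbes, hcl⟩ := h1 ν hν c hc U P hU hm δ hδ
  have hpair : ∀ (i : Fin 3) (φ : V → ℝ), ContDiff ℝ ∞ φ → Per φ →
      Tendsto (fun t => ∫ x in cube, u t x i * φ x) (𝓝[>] 0) (𝓝 (pr c i φ)) := by
    intro i φ hφ hφp
    refine h2 (fun t x => u t x i) (fun k => c k i) (fun t ht => contDiff_pi.1 (slice_smooth hO ht) i)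
      (fun t ht j x => ?_) (fun k => ?_) ?_ φ hφ hφp
    · show u t (x + Pi.single j 1) i = u t x i
      rw [hO.per_u t ht j x]
    · exact (tendsto_pi_nhds.1 (hk k)) i
    · obtain ⟨C, hC⟩ := hb
      exact ⟨C, fun t ht ht1 k => (norm_le_pi_norm (vf (u t) k) i).trans (hC t ht ht1 k)⟩
  refine ⟨u, p, hO, hL, hpair, ?_, hh, hbes, hcl⟩
  intro φ hφ hφp hd t ht
  refine h3 ν u p hO hL φ hφ hφp hd _ ?_ t ht
  exact tendsto_finsetSum _ fun i _ => hpair i (fun x => φ x i) (contDiff_pi.1 hφ i)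
    (fun j x => by show φ (x + Pi.single j 1) i = φ x i; rw [hφp j x])

end Pool.Agent.Run7.h744.WS
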