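import Pool.Agent.Run7.h744.WS.Geo
import Pool.Agent.Run7.h744.WS.IterH
import Pool.Agent.Run7.h811.WS.InitH
import Pool.Agent.Run7.h811.WS.WkH
import Pool.Agent.Run7.h811.WS.AlC
import Pool.Agent.Run7.h980.WS.PairH
import Pool.Agent.Run7.h980.WS.Prof
import Pool.Agent.Run7.h782.WS.Step
import Pool.Agent.Run7.h969.WS.AppP
import Pool.Agent.Run7.h782.GS.All

/-!
Weak solutions for rough data which are smooth for positive times: the assembly.
-/

set_option autoImplicit false

namespace Pool.Agent.Run7.h744.WS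

theorem stmStepW : Pool.Agent.Run7.h782.WS.StmStepW :=
  Pool.Agent.Run7.h782.WS.stepW Pool.Agent.Run7.h782.GD.stmT1 (Pool.Agent.Run7.h980.WS.prof stmGeo)
    (Pool.Agent.Run7.h969.WS.appP Pool.Agent.Run7.h811.WS.stmAlW) Pool.Agent.Run7.h782.GS.stmInt
    stmAl

theorem stmIterH : StmIterH :=
  iterH stmStepW (Pool.Agent.Run7.h308.GS.stmLim Pool.Agent.Run7.h744.GS.stmSmooth) stmAl

theorem stmInitH : StmInitH :=
  Pool.Agent.Run7.h811.WS.initH stmIterH Pool.Agent.Run7.h969.GD.stmTg'
    Pool.Agent.Run7.h308.GS.stmPhys2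

/-- Every divergence free datum of class `H⁻¹` has a global weak solution which is smooth for all
positive times. -/
theorem stmRough : StmRough :=
  rough stmInitH Pool.Agent.Run7.h980.WS.pairH Pool.Agent.Run7.h811.WS.wkH

end Pool.Agent.Run7.h744.WS
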