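import Pool.Agent.Run7.h744.WS.HDefs
import Pool.Agent.Run7.h744.WS.Al

/-!
Piece R1: the norm of the antidivergence by the norm in `H⁻¹`.
-/

set_option autoImplicit false

open MeasureTheory Set Filter Topology
open scoped ContDiff ComplexConjugate

namespace Pool.Agent.Run7.h744.WS

open H459R3.NS Pool.Agent.Run7.h782 Pool.Agent.Run7.h782.GD Pool.Agent.Run7.h782.WS

theorem int_norm_le {a : K3 → ℂ} (ha : Summable a) :
    ∫ x in cube, ‖S a x‖ ≤ Real.sqrt (∑' k, ‖a k‖ ^ 2) := by
  have hc := (S_continuous ha).norm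
  refine Real.le_sqrt_of_sq_le ?_
  have h := integral_mul_sq_le (μ := volume.restrict cube) (a := fun x => ‖S a x‖)
    (b := fun _ => (1 : ℝ)) (integrableOn_cube (hc.pow 2)) (integrableOn_cube continuous_const)
    (integrableOn_cube (hc.mul continuous_const))
  have e : ∫ _x in cube, ((1 : ℝ) ^ 2) = 1 := by
    rw [integral_const, Measure.real, Measure.restrict_apply_univ, volume_cube]
    simp
  rw [e, mul_one, integral_norm_sq ha, n2_sq] at h
  simpa only [mul_one] using h

/-- **Piece R1.** -/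
theorem stmAl2 : StmAl2 := by
  have hpi := Real.pi_pos
  refine ⟨9 / Real.pi, by positivity, fun c hc => ?_⟩
  have hs2 : Summable fun k => ‖c k‖ ^ 2 / len k ^ 2 := by
    have e : ∀ k, ‖c k‖ ^ 2 / len k ^ 2 = ‖((‖c k‖ / len k : ℝ) : ℂ)‖ ^ 2 := fun k => by
      rw [Complex.norm_real, Real.norm_of_nonneg (div_nonneg (norm_nonneg _) (len_nonneg k)),
        div_pow]
    simp_rw [e]
    exact summable_sq (Complex.summable_ofReal.2 hc)
  have h1 : ∀ i j, ∫ x in cube, ‖S (anti c i j) x‖
      ≤ 1 / Real.pi * Real.sqrt (∑' k, ‖c k‖ ^ 2 / len k ^ 2) := by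
    intro i j
    have hs := summable_anti hc i j
    refine (int_norm_le hs).trans ?_
    have e : 1 / Real.pi = Real.sqrt ((1 / Real.pi) ^ 2) := (Real.sqrt_sq (by positivity)).symm
    rw [e, ← Real.sqrt_mul (by positivity), ← tsum_mul_left]
    refine Real.sqrt_le_sqrt ?_
    refine (summable_sq hs).tsum_le_tsum (fun k => ?_) (hs2.mul_left _)
    rw [← div_pow, ← mul_pow]
    exact pow_le_pow_left₀ (norm_nonneg _) (norm_anti_le c i j k) 2
  calc al c ≤ ∑ _i : Fin 3, ∑ _j : Fin 3,
        1 / Real.pi * Real.sqrt (∑' k, ‖c k‖ ^ 2 / len k ^ 2) :=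
        Finset.sum_le_sum fun i _ => Finset.sum_le_sum fun j _ => h1 i j
    _ = 9 / Real.pi * Real.sqrt (∑' k, ‖c k‖ ^ 2 / len k ^ 2) := by
        simp only [Finset.sum_const, Finset.card_univ, Fintype.card_fin, nsmul_eq_mul]
        push_cast
        ring

end Pool.Agent.Run7.h744.WS
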