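import Pool.Agent.Run7.h744.WS.HDefs
import Pool.Agent.Run7.h782.GS.P1

/-!
The variation of a Fourier coefficient of a solution is bounded by its energy integral.
-/

set_option autoImplicit false

open MeasureTheory Set Filter Topology
open scoped ContDiff ComplexConjugate ENNReal

namespace Pool.Agent.Run7.h744.WS

open H459R3.NS Pool.Agent.Run7.h782 Pool.Agent.Run7.h782.GD Pool.Agent.Run7.h782.GS
open Pool.Agent.Run7.h782.WS

theorem summable_nsq {a : Cf} (ha : L1 a) : Summable fun k => ‖a k‖ ^ 2 := by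
  have h : Summable fun k => ((‖a k‖ : ℝ) : ℂ) := Complex.summable_ofReal.2 ha
  refine (summable_sq h).congr fun k => ?_
  rw [Complex.norm_real, norm_norm]

/-- The nonlinear term by the energy. -/
theorem norm_nl_le_sq {a : Cf} (ha : L1 a) (k : K3) :
    ‖nl a a k‖ ≤ 24 * Real.pi * len k * ∑' p, ‖a p‖ ^ 2 := by
  have hpi := Real.pi_pos
  have hl := len_nonneg k
  refine (norm_nl_le ha ha k).trans ?_
  refine mul_le_mul_of_nonneg_left ?_ (by positivity)
  have hs := summable_nsq ha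
  have hs' : Summable fun p => ‖a (k - p)‖ ^ 2 := by
    have := (Equiv.subLeft k).summable_iff (f := fun p => ‖a p‖ ^ 2)
    exact this.2 hs
  have hc := summable_conv (fun _ => norm_nonneg _) (fun _ => norm_nonneg _) ha ha k
  calc ∑' p, ‖a p‖ * ‖a (k - p)‖
      ≤ ∑' p, (1 / 2 * ‖a p‖ ^ 2 + 1 / 2 * ‖a (k - p)‖ ^ 2) := by
        refine hc.tsum_le_tsum (fun p => ?_) ((hs.mul_left _).add (hs'.mul_left _))
        nlinarith [sq_nonneg (‖a p‖ - ‖a (k - p)‖)]
    _ = 1 / 2 * (∑' p, ‖a p‖ ^ 2) + 1 / 2 * ∑' p, ‖a (k - p)‖ ^ 2 := by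
        rw [(hs.mul_left _).tsum_add (hs'.mul_left _), tsum_mul_left, tsum_mul_left]
    _ = ∑' p, ‖a p‖ ^ 2 := by
        have e : ∑' p, ‖a (k - p)‖ ^ 2 = ∑' p, ‖a p‖ ^ 2 :=
          (Equiv.subLeft k).tsum_eq (fun p => ‖a p‖ ^ 2)
        rw [e]
        ring

/-- The energy with extended values. -/
noncomputable def En (a : Cf) : ℝ≥0∞ := ∑' k, ENNReal.ofReal ‖a k‖ ^ (2 : ℝ)

theorem En_eq {a : Cf} (ha : L1 a) : En a = ENNReal.ofReal (∑' k, ‖a k‖ ^ 2) := by
  rw [En, ENNReal.ofReal_tsum_of_nonneg (fun k => sq_nonneg _) (summable_nsq ha)]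
  refine tsum_congr fun k => ?_
  rw [ENNReal.ofReal_rpow_of_nonneg (norm_nonneg _) (by norm_num), Real.rpow_two]

/-- The constant of the mode `k`. -/
noncomputable def kc (ν : ℝ) (k : K3) : ℝ := lam ν k + 24 * Real.pi * len k

theorem kc_nonneg {ν : ℝ} (hν : 0 < ν) (k : K3) : 0 ≤ kc ν k := by
  have h1 := sq_nonneg' k
  have h2 := len_nonneg k
  have h3 := Real.pi_pos
  rw [kc, lam]
  positivity

/-- The variation of a coefficient. -/
theorem coef_le {ν : ℝ} (hν : 0 < ν) {a : ℝ → Cf} (ha : LSol ν a) {t : ℝ} (ht : 0 ≤ t) (k : K3) :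
    ENNReal.ofReal ‖a t k - a 0 k‖
      ≤ ENNReal.ofReal (kc ν k) * ∫⁻ s in Ioc 0 t, (1 + En (a s)) := by
  set f : ℝ → C3 := fun s => -(lam ν k : ℂ) • a s k - nl (a s) (a s) k with hf
  have hcn : Cnt (fun s => nl (a s) (a s)) := Cnt.nl ha.cnt ha.cnt ha.maj ha.maj
  have h0 : ContinuousOn (fun s => a s k) (Ici 0) := ha.cnt k
  have h1 : ContinuousOn (fun s => nl (a s) (a s) k) (Ici 0) := hcn k
  have h2 : ContinuousOn (fun s => -(lam ν k : ℂ) • a s k) (Ici 0) := by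
    refine ContinuousOn.smul (f := fun _ => -(lam ν k : ℂ)) continuousOn_const h0
  have hfc : ContinuousOn (fun s => -(lam ν k : ℂ) • a s k - nl (a s) (a s) k) (Ici 0) := by
    refine ContinuousOn.sub h2 h1
  have hii : IntervalIntegrable f volume 0 t := by
    refine ContinuousOn.intervalIntegrable ?_
    rw [uIcc_of_le ht]
    exact hfc.mono Icc_subset_Ici_self
  have hftc : ∫ s in (0 : ℝ)..t, f s = a t k - a 0 k := by
    refine intervalIntegral.integral_eq_sub_of_hasDerivAt_of_le ht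
      ((ha.cnt k).mono Icc_subset_Ici_self) (fun s hs => ?_) hii
    exact (ha.der s hs.1.le k).hasDerivAt (Ici_mem_nhds hs.1)
  have hlam : 0 ≤ lam ν k := by
    have := sq_nonneg' k
    rw [lam]
    positivity
  have hpi := Real.pi_pos
  have hl := len_nonneg k
  rw [← hftc, intervalIntegral.integral_of_le ht, ofReal_norm]
  refine (enorm_integral_le_lintegral_enorm _).trans ?_
  rw [← lintegral_const_mul' _ _ ENNReal.ofReal_ne_top]
  refine setLIntegral_mono' measurableSet_Ioc fun s hs => ?_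
  have h1 : L1 (a s) := Maj.l1 ha.maj hs.1.le
  have hsum := summable_nsq h1
  have h2 : ‖a s k‖ ^ 2 ≤ ∑' p, ‖a s p‖ ^ 2 := hsum.le_tsum k fun _ _ => sq_nonneg _
  have h3 : ‖f s‖ ≤ kc ν k * (1 + ∑' p, ‖a s p‖ ^ 2) := by
    have h4 : ‖f s‖ ≤ lam ν k * ‖a s k‖ + 24 * Real.pi * len k * ∑' p, ‖a s p‖ ^ 2 := by
      refine (norm_sub_le _ _).trans (add_le_add ?_ (norm_nl_le_sq h1 k))
      rw [norm_smul, norm_neg, Complex.norm_real, Real.norm_of_nonneg hlam]
    have h5 : ‖a s k‖ ≤ 1 + ∑' p, ‖a s p‖ ^ 2 := by nlinarith [sq_nonneg (‖a s k‖ - 1)]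
    have h6 : ∑' p, ‖a s p‖ ^ 2 ≤ 1 + ∑' p, ‖a s p‖ ^ 2 := by linarith
    have h7 := mul_le_mul_of_nonneg_left h5 hlam
    have h8 := mul_le_mul_of_nonneg_left h6 (show 0 ≤ 24 * Real.pi * len k by positivity)
    rw [kc]
    linarith
  rw [En_eq h1, ← ENNReal.ofReal_one, ← ENNReal.ofReal_add zero_le_one
    (tsum_nonneg fun _ => sq_nonneg _), ← ENNReal.ofReal_mul (kc_nonneg hν k), ← ofReal_norm]
  exact ENNReal.ofReal_le_ofReal h3

end Pool.Agent.Run7.h744.WS
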