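import Pool.Agent.Run7.h782.GS.Pub

/-!
Rough initial values and weak solutions which are smooth for positive times.
-/

set_option autoImplicit false

open MeasureTheory Set Filter Topology
open scoped ContDiff ComplexConjugate

namespace Pool.Agent.Run7.h744.WS

open H459R3.NS Pool.Agent.Run7.h782.GD

/-- `c` is the family of the Fourier coefficients of a real divergence free distribution of class
`H⁻¹` on the torus (the term with `k = 0` is zero in Lean, so there is no condition on the mean). -/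
structure Datum (c : K3 → C3) : Prop where
  real : ∀ k i, c (-k) i = conj (c k i)
  divfree : ∀ k, ∑ j, (k j : ℂ) * c k j = 0
  size : Summable fun k => ‖c k‖ ^ 2 / len k ^ 2

/-- The value at the smooth periodic field `φ` of the distribution with the coefficients `c`. -/
noncomputable def pair (c : K3 → C3) (φ : V → V) : ℝ :=
  ∑ i, (∑' k, c k i * conj (vf φ k i)).re

/-- The `i`-th component of the field with absolutely summable Fourier coefficients `c`. -/
noncomputable def fser (c : K3 → C3) (i : Fin 3) (x : V) : ℝ := (∑' k, c k i * ee k x).re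

/-- `u` is square integrable over `(0, T) × [0,1]³` for all `T`. -/
def SqInt (u : ℝ → V → V) : Prop := ∀ (T : ℝ) (i : Fin 3),
  IntegrableOn (fun z : ℝ × V => u z.1 z.2 i ^ 2) (Ioc 0 T ×ˢ cube)

/-- `u(t)` tends to `c` in the sense of distributions as `t → 0`. -/
def Attains (c : K3 → C3) (u : ℝ → V → V) : Prop := ∀ φ : V → V, ContDiff ℝ ∞ φ → Per φ →
  Tendsto (fun t => ∫ x in cube, ∑ i, u t x i * φ x i) (𝓝[>] 0) (𝓝 (pair c φ))

/-- The weak form of the Navier-Stokes equations with the initial value `c`: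
`∫ u(t)·φ = ⟨c, φ⟩ + ∫₀ᵗ ∫ (∑ uᵢ uⱼ ∂ᵢφⱼ + ν u·Δφ)` for all smooth periodic `φ` with `div φ = 0`. -/
def WeakFrom (ν : ℝ) (c : K3 → C3) (u : ℝ → V → V) : Prop :=
  ∀ φ : V → V, ContDiff ℝ ∞ φ → Per φ → (∀ x, ∑ i, pd i (fun y => φ y i) x = 0) →
    ∀ t, 0 < t → ∫ x in cube, ∑ i, u t x i * φ x i = pair c φ
      + ∫ z in Ioc 0 t ×ˢ cube,
        (∑ i, ∑ j, u z.1 z.2 i * u z.1 z.2 j * pd i (fun y => φ y j) z.2
          + ν * ∑ i, u z.1 z.2 i * ∑ j, pd j (pd j (fun y => φ y i)) z.2)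

/-- `|u(t)| ≤ h(t)` with `√t h(t) → 0` as `t → 0`, and `√t h(t)` is in `L^q(dt/t)` on `(0, 1)` for
all `q > 2`. -/
def SubTypeI (u : ℝ → V → V) : Prop := ∃ h : ℝ → ℝ, (∀ t, 0 < t → ∀ x i, |u t x i| ≤ h t) ∧
  Tendsto (fun t => Real.sqrt t * h t) (𝓝[>] 0) (𝓝 0) ∧
  ∀ q : ℝ, 2 < q → IntegrableOn (fun t => (Real.sqrt t * h t) ^ q / t) (Ioc 0 1)

end Pool.Agent.Run7.h744.WS
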