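import Pool.Agent.Run7.h744.WS.Al2
import Pool.Agent.Run7.h744.WS.Coef
import Pool.Agent.Run7.h308.WS.RecW

/-!
The sequence of the iteration for rough data.
-/

set_option autoImplicit false

open MeasureTheory Set Filter Topology
open scoped ENNReal

namespace Pool.Agent.Run7.h744.WS

open H459R3.NS Pool.Agent.Run7.h782 Pool.Agent.Run7.h782.GD Pool.Agent.Run7.h782.GS
open Pool.Agent.Run7.h782.WS Pool.Agent.Run7.h969.GS Pool.Agent.Run7 Pool.Agent.Run7.h308.WS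

/-- Tails of a summable family. -/
theorem exists_tail {f : K3 → ℝ} (hf : Summable f) (h0 : ∀ k, 0 ≤ f k) {ε : ℝ} (hε : 0 < ε) :
    ∃ P₀ : Finset K3, ∀ P : Finset K3, P₀ ⊆ P →
      (Summable fun k => if k ∈ P then 0 else f k) ∧ ∑' k, (if k ∈ P then 0 else f k) ≤ ε := by
  obtain ⟨P₀, hP₀⟩ := summable_iff_vanishing_norm.1 hf ε hε
  refine ⟨P₀, fun P hP => ?_⟩
  have hs : Summable fun k => if k ∈ P then 0 else f k :=
    Summable.of_nonneg_of_le (fun k => by split_ifs; exacts [le_rfl, h0 k])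
      (fun k => by split_ifs; exacts [h0 k, le_rfl]) hf
  refine ⟨hs, ?_⟩
  refine Summable.tsum_le_of_sum_le hs fun A => ?_
  have h1 : ∑ k ∈ A, (if k ∈ P then 0 else f k) = ∑ k ∈ A \ P, f k := by
    rw [Finset.sum_ite]
    rw [Finset.sum_const_zero, zero_add]
    congr 1
    ext k
    simp
  rw [h1]
  have h3 := hP₀ (A \ P) (Finset.disjoint_left.2 fun k hk hk' =>
    (Finset.mem_sdiff.1 hk).2 (hP hk'))
  rw [Real.norm_eq_abs] at h3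
  exact (le_abs_self _).trans h3.le

/-- Truncation of a datum. -/
theorem truncH {c : Cf} (hc0 : c 0 = 0) (hc : Dat c) {ε ε' : ℝ} (hε : 0 < ε) (hε' : 0 < ε') :
    ∃ (Z : Finset K3) (z : Cf), (0 : K3) ∉ Z ∧ (∀ k ∉ Z, z k = 0) ∧ Herm z ∧ Dv z ∧
      (∀ k, ‖c k - z k‖ ≤ ‖c k‖) ∧
      ∑' k, ‖c k - z k‖ ^ 2 / len k ^ 2 ≤ ε ∧
      ((Summable fun k => ‖c k‖) → ∑' k, ‖c k - z k‖ ≤ ε') := by
  classical
  obtain ⟨P₁, h1⟩ := exists_tail hc.sm (fun k => by positivity) hε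
  obtain ⟨P₂, h2⟩ : ∃ P₂ : Finset K3, (Summable fun k => ‖c k‖) → ∀ P : Finset K3, P₂ ⊆ P →
      (Summable fun k => if k ∈ P then 0 else ‖c k‖) ∧ ∑' k, (if k ∈ P then 0 else ‖c k‖) ≤ ε' := by
    by_cases hs : Summable fun k => ‖c k‖
    · obtain ⟨P, hP⟩ := exists_tail hs (fun k => norm_nonneg _) hε'
      exact ⟨P, fun _ => hP⟩
    · exact ⟨∅, fun h => absurd h hs⟩
  set Y : Finset K3 := (P₁ ∪ P₂) ∪ (P₁ ∪ P₂).image (fun k => -k) with hY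
  have hYn : ∀ k, k ∈ Y → -k ∈ Y := by
    intro k hk
    rw [hY, Finset.mem_union, Finset.mem_image] at hk ⊢
    rcases hk with hk | ⟨l, hl, rfl⟩
    · exact Or.inr ⟨k, hk, rfl⟩
    · left
      rwa [neg_neg]
  have hYn' : ∀ k, -k ∈ Y ↔ k ∈ Y := fun k =>
    ⟨fun h => by simpa using hYn _ h, hYn k⟩
  have hcz : ∀ k, ‖c k - (if k ∈ Y then c k else 0)‖ = if k ∈ Y then 0 else ‖c k‖ := by
    intro k
    split_ifs with h
    · rw [sub_self, norm_zero]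
    · rw [sub_zero]
  refine ⟨Y.erase 0, fun k => if k ∈ Y then c k else 0, Finset.notMem_erase _ _, ?_, ?_, ?_, ?_,
    ?_, ?_⟩
  · intro k hk
    rw [Finset.mem_erase, not_and] at hk
    show (if k ∈ Y then c k else 0) = 0
    by_cases h0 : k = 0
    · subst h0
      rw [hc0, ite_self]
    · rw [if_neg (hk h0)]
  · intro k i
    show (if -k ∈ Y then c (-k) else 0) i = (starRingEnd ℂ) ((if k ∈ Y then c k else 0) i)
    by_cases h : k ∈ Y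
    · rw [if_pos h, if_pos ((hYn' k).2 h)]
      exact hc.herm k i
    · rw [if_neg h, if_neg fun h' => h ((hYn' k).1 h')]
      simp
  · intro k
    show kd k (if k ∈ Y then c k else 0) = 0
    split_ifs
    · exact hc.dv k
    · exact kd_zero_right k
  · intro k
    rw [hcz]
    split_ifs
    · exact norm_nonneg _
    · exact le_rfl
  · refine le_trans (le_of_eq ?_) (h1 Y (Finset.subset_union_left.trans
      Finset.subset_union_left)).2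
    refine tsum_congr fun k => ?_
    rw [hcz]
    split_ifs
    · simp
    · rfl
  · intro hs
    refine le_trans (le_of_eq ?_) (h2 hs Y (Finset.subset_union_right.trans
      Finset.subset_union_left)).2
    exact tsum_congr fun k => hcz k

/-- The sequence. -/
theorem seqsH (hStep : StmStepW) : ∃ C₀ : ℝ, 0 < C₀ ∧ ∀ (ν : ℝ), 0 < ν → ∀ U : ℝ → Cf,
    Tg ν U → ∀ c : Cf, c 0 = 0 → Dat c → ∀ δ : ℝ, 0 < δ →
    ∃ (z : ℕ → Cf) (A : ℕ → ℝ → Cf) (ε H : ℕ → ℝ), A 0 = U ∧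
      (∀ n, L1 (z n)) ∧ (∀ n, Dv (z n)) ∧ (∀ n k, ‖c k - z n k‖ ≤ ‖c k‖) ∧
      (∀ n, ∑' k, ‖c k - z n k‖ ^ 2 / len k ^ 2 ≤ (1 / 4) ^ n) ∧
      ((Summable fun k => ‖c k‖) → ∀ n, ∑' k, ‖c k - z n k‖ ≤ (1 / 2) ^ n) ∧
      (∀ n, z n 0 = 0) ∧
      (∀ n, StpW C₀ ((1 / 2) ^ n) (H n) (A n) ν (z n) (ε n) (A (n + 1))) ∧
      (∀ n, 0 < ε n) ∧ (∀ n, ε n ≤ (1 / 2) ^ n) ∧ (∀ n, ε n ≤ δ * (1 / 2) ^ (n + 1)) ∧
      Antitone ε ∧ (∀ n, 0 ≤ H n) ∧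
      (∀ n, (H n + 1) * ε n ^ (1 / ((n : ℝ) + 1)) ≤ (1 / 2) ^ n) := by
  obtain ⟨C₀, hC₀, H⟩ := stpw_of_step hStep
  refine ⟨C₀, hC₀, fun ν hν U hU c hc0 hc δ hδ => ?_⟩
  have hz : ∀ n : ℕ, ∃ z : Cf, ∃ Z : Finset K3, (0 : K3) ∉ Z ∧ (∀ k ∉ Z, z k = 0) ∧ Herm z ∧
      Dv z ∧ (∀ k, ‖c k - z k‖ ≤ ‖c k‖) ∧ ∑' k, ‖c k - z k‖ ^ 2 / len k ^ 2 ≤ (1 / 4) ^ n ∧
      ((Summable fun k => ‖c k‖) → ∑' k, ‖c k - z k‖ ≤ (1 / 2) ^ n) := by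
    intro n
    obtain ⟨Z, z, h⟩ := truncH hc0 hc (ε := (1 / 4 : ℝ) ^ n) (ε' := (1 / 2 : ℝ) ^ n)
      (by positivity) (by positivity)
    exact ⟨z, Z, h⟩
  choose z Z hZ0 hzZ hzh hzd hzc hz2 hz1 using hz
  obtain ⟨f, hf0, hP, hR⟩ := exists_rec (X := (ℝ → Cf) × ℝ)
    (fun x => Tg ν x.1 ∧ 0 < x.2)
    (fun n x y => ∃ H' : ℝ, 0 ≤ H' ∧ StpW C₀ ((1 / 2) ^ n) H' x.1 ν (z n) y.2 y.1 ∧
      y.2 ≤ x.2 ∧ y.2 ≤ (1 / 2) ^ n ∧ y.2 ≤ δ * (1 / 2) ^ (n + 1) ∧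
      (H' + 1) * y.2 ^ (1 / ((n : ℝ) + 1)) ≤ (1 / 2) ^ n)
    (U, 1) ⟨hU, one_pos⟩ (by
      rintro n ⟨a, e⟩ ⟨ha, he⟩
      obtain ⟨H', hH0, hH'⟩ := H ν hν a ha (Z n) (z n) (hZ0 n) (hzZ n) (hzh n) (hzd n)
        ((1 / 2) ^ n) (by positivity)
      have e1 : ∀ᶠ ε in 𝓝[>] (0 : ℝ), 0 < ε := self_mem_nhdsWithin
      have e2 : ∀ κ : ℝ, 0 < κ → ∀ᶠ ε in 𝓝[>] (0 : ℝ), ε ≤ κ := fun κ hκ =>
        nhdsWithin_le_nhds (ge_mem_nhds hκ)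
      obtain ⟨ε, h1, h2, h3, h4, h5⟩ := (e1.and ((e2 e he).and ((e2 ((1 / 2) ^ n)
        (by positivity)).and ((e2 (δ * (1 / 2) ^ (n + 1)) (by positivity)).and
          (small_pow (H' + 1) (1 / ((n : ℝ) + 1)) ((1 / 2) ^ n) (by positivity)
            (by positivity)))))).exists
      obtain ⟨b, hb⟩ := hH' ε h1
      exact ⟨(b, ε), ⟨hb.tg, h1⟩, H', hH0, hb, h2, h3, h4, h5⟩)
  choose H' hH0 hst h1 h2 h3 h4 using hR
  refine ⟨z, fun n => (f n).1, fun n => (f (n + 1)).2, H', by simp [hf0],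
    fun n => L1.of_supp (hzZ n), hzd, hzc, hz2, fun hs n => hz1 n hs,
    fun n => hzZ n 0 (hZ0 n), hst, fun n => (hP (n + 1)).2, h2, h3, ?_, hH0, h4⟩
  exact antitone_nat_of_succ_le fun n => h1 (n + 1)

end Pool.Agent.Run7.h744.WS
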